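import Pool.Agent.Helper2K9.FP.MainC
import Pool.Agent.R460.SC.Cm
import Pool.Agent.R460.SC.Ga

set_option autoImplicit false

/-! The constant of Conjecture F. -/

namespace Pool.Agent.Helper2K9.FP

open Finset Filter Topology
open Pool.Agent.W468.ConjF (SJ PJ PJ_le PJ_tendsto)
open Pool.Agent.R460.SC (om cf cf_eq PJ_ge tail_abs)
open Pool.Agent.Y868.TB (low_count_lin)

lemma om_zmod (a b c : ℤ) {p : ℕ} [Fact p.Prime] : om a b c p =
    (univ.filter (fun x : ZMod p => (a : ZMod p) * x ^ 2 + (b : ZMod p) * x + (c : ZMod p) = 0)).card := by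
  classical
  unfold om
  have h : ((range p).filter (fun m : ℕ => (p : ℤ) ∣ a * (m : ℤ) ^ 2 + b * (m : ℤ) + c)).card =
      (univ.filter (fun x : ZMod p => (a : ZMod p) * x ^ 2 + (b : ZMod p) * x + (c : ZMod p) = 0)).card := by
    refine card_nbij' (fun r : ℕ => (r : ZMod p)) (fun x => x.val) ?_ ?_ ?_ ?_
    · intro r hr
      rw [mem_coe, mem_filter] at hr ⊢
      refine ⟨mem_univ _, ?_⟩
      have h1 := hr.2
      rw [← ZMod.intCast_zmod_eq_zero_iff_dvd] at h1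
      push_cast at h1
      exact h1
    · intro x hx
      rw [mem_coe, mem_filter] at hx ⊢
      refine ⟨mem_range.2 (ZMod.val_lt x), ?_⟩
      rw [← ZMod.intCast_zmod_eq_zero_iff_dvd]
      push_cast
      rw [ZMod.natCast_zmod_val]
      exact hx.2
    · intro r hr
      rw [mem_coe, mem_filter, mem_range] at hr
      simp only
      rw [ZMod.val_natCast, Nat.mod_eq_of_lt hr.1]
    · intro x _
      simp only
      exact ZMod.natCast_zmod_val x
  convert h using 1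

/-- the number of the roots modulo an odd prime which does not divide `a` -/
lemma om_leg (a b c : ℤ) {p : ℕ} (hp : p.Prime) (h2 : p ≠ 2) (hpa : ¬ (p : ℤ) ∣ a) :
    (om a b c p : ℤ) = 1 + jacobiSym (b ^ 2 - 4 * a * c) p := by
  have : Fact p.Prime := ⟨hp⟩
  have hα : (a : ZMod p) ≠ 0 := by
    intro h
    exact hpa ((ZMod.intCast_zmod_eq_zero_iff_dvd _ _).1 h)
  have h20 : (2 : ZMod p) ≠ 0 := by
    intro h
    have h3 : ((2 : ℕ) : ZMod p) = 0 := by exact_mod_cast h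
    rw [ZMod.natCast_eq_zero_iff] at h3
    exact h2 ((Nat.prime_dvd_prime_iff_eq hp Nat.prime_two).1 h3)
  rw [← jacobiSym.legendreSym.to_jacobiSym, add_comm, ← legendreSym.card_sqrts p h2, om_zmod]
  congr 1
  refine card_nbij' (fun x : ZMod p => 2 * (a : ZMod p) * x + (b : ZMod p))
    (fun y : ZMod p => (y - (b : ZMod p)) / (2 * (a : ZMod p))) ?_ ?_ ?_ ?_
  · intro x hx
    rw [mem_coe, mem_filter] at hx
    rw [mem_coe, Set.mem_toFinset, Set.mem_ofPred_eq]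
    have h1 := hx.2
    push_cast
    linear_combination (4 * (a : ZMod p)) * h1
  · intro y hy
    rw [mem_coe, Set.mem_toFinset, Set.mem_ofPred_eq] at hy
    rw [mem_coe, mem_filter]
    refine ⟨mem_univ _, ?_⟩
    push_cast at hy
    field_simp
    linear_combination hy
  · intro x _
    simp only
    field_simp
    ring
  · intro y _
    simp only
    field_simp
    ring

lemma roots_om (a : ℕ) (b : ℤ) (n p : ℕ) : roots a b n p = om a b (-n) p := by
  unfold roots om g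
  simp only [sub_eq_add_neg]

/-- the limit of the product beyond `z` is close to one -/
lemma PJ_lim {D : ℤ} (hD : ¬ IsSquare D) {z : ℕ} (hz : 2 ≤ z) {δ : ℝ} (hδ0 : 0 ≤ δ) (hδ1 : δ + 5 / z ≤ 1 / 2)
    (h : ∀ᶠ N in atTop, |SJ D z N| ≤ δ) :
    ∃ L : ℝ, 0 < L ∧ Tendsto (fun N => PJ D z N) atTop (𝓝 L) ∧ |L - 1| ≤ 2 * (δ + 5 / z) := by
  obtain ⟨L, hL0, hL⟩ := PJ_tendsto D hD z hz
  have hz0 : (0 : ℝ) < z := by exact_mod_cast (by omega : 0 < z)
  have h5 : 0 ≤ 5 / (z : ℝ) := by positivity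
  have h1z : 1 / (z : ℝ) ≤ 5 / z := div_le_div_of_nonneg_right (by norm_num) hz0.le
  refine ⟨L, hL0, hL, ?_⟩
  have hup : L ≤ 1 + 2 * (δ + 5 / z) := by
    apply le_of_tendsto hL
    filter_upwards [h, eventually_ge_atTop z] with N h1 hN
    refine (PJ_le D z N hz hN).trans ?_
    have h6 : |SJ D z N| + 1 / z ≤ δ + 5 / z := add_le_add h1 h1z
    have h7 : 0 ≤ |SJ D z N| + 1 / (z : ℝ) := by positivity
    have h8 := Real.exp_bound_div_one_sub_of_interval h7 (by linarith)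
    have h9 : Real.exp (|SJ D z N| + 1 / z) ≤ Real.exp (δ + 5 / z) := Real.exp_le_exp.2 h6
    have h10 : Real.exp (δ + 5 / z) ≤ 1 / (1 - (δ + 5 / z)) :=
      Real.exp_bound_div_one_sub_of_interval (by linarith) (by linarith)
    refine h9.trans (h10.trans ?_)
    rw [div_le_iff₀ (by linarith)]
    have h11 : 0 ≤ δ + 5 / (z : ℝ) := by linarith
    nlinarith
  have hlo : 1 - 2 * (δ + 5 / z) ≤ L := by
    apply ge_of_tendsto hL
    filter_upwards [h, eventually_ge_atTop z] with N h1 hN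
    refine le_trans ?_ (PJ_ge D z N hz hN)
    have h6 := Real.add_one_le_exp (-(|SJ D z N| + 5 / z))
    linarith
  rw [abs_le]
  constructor <;> linarith

lemma SJ_split (D : ℤ) {z w N : ℕ} (h1 : z ≤ w) (h2 : w ≤ N) : SJ D z N = SJ D z w + SJ D w N := by
  unfold SJ
  rw [← sum_union]
  · apply sum_congr _ (fun _ _ => rfl)
    ext p
    rw [mem_union, mem_filter, mem_filter, mem_filter, mem_Ioc, mem_Ioc, mem_Ioc]
    constructor
    · rintro ⟨⟨h3, h4⟩, h5⟩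
      by_cases h6 : p ≤ w
      · exact Or.inl ⟨⟨h3, h6⟩, h5⟩
      · exact Or.inr ⟨⟨by omega, h4⟩, h5⟩
    · rintro (⟨⟨h3, h4⟩, h5⟩ | ⟨⟨h3, h4⟩, h5⟩)
      · exact ⟨⟨h3, by omega⟩, h5⟩
      · exact ⟨⟨by omega, h4⟩, h5⟩
  · rw [disjoint_left]
    intro p hp hp'
    rw [mem_filter, mem_Ioc] at hp hp'
    omega

lemma cf_split {a b c : ℤ} (ha : 0 < a) {z N : ℕ} (hz : 2 ≤ z) (haz : a ≤ z) (hN : z ≤ N) :
    cf a b c N = cf a b c z * PJ (b ^ 2 - 4 * a * c) z N := by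
  have hbig : ∀ p : ℕ, z < p → ¬ (p : ℤ) ∣ a := by
    intro p hp h
    have := Int.le_of_dvd ha h
    omega
  unfold cf
  have e1 : (Icc 3 N).filter (fun p : ℕ => p.Prime ∧ (p : ℤ) ∣ a ∧ (p : ℤ) ∣ b) =
      (Icc 3 z).filter (fun p : ℕ => p.Prime ∧ (p : ℤ) ∣ a ∧ (p : ℤ) ∣ b) := by
    ext p
    rw [mem_filter, mem_filter, mem_Icc, mem_Icc]
    constructor
    · rintro ⟨⟨h1, h2⟩, h3⟩
      refine ⟨⟨h1, ?_⟩, h3⟩
      by_contra hcon
      exact hbig p (by omega) h3.2.1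
    · rintro ⟨⟨h1, h2⟩, h3⟩
      exact ⟨⟨h1, by omega⟩, h3⟩
  have e2 : (Icc 3 N).filter (fun p : ℕ => p.Prime ∧ ¬ (p : ℤ) ∣ a) =
      (Icc 3 z).filter (fun p : ℕ => p.Prime ∧ ¬ (p : ℤ) ∣ a) ∪ (Ioc z N).filter Nat.Prime := by
    ext p
    rw [mem_union, mem_filter, mem_filter, mem_filter, mem_Icc, mem_Icc, mem_Ioc]
    constructor
    · rintro ⟨⟨h1, h2⟩, h3⟩
      by_cases h4 : p ≤ z
      · exact Or.inl ⟨⟨h1, h4⟩, h3⟩
      · exact Or.inr ⟨⟨by omega, h2⟩, h3.1⟩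
    · rintro (⟨⟨h1, h2⟩, h3⟩ | ⟨⟨h1, h2⟩, h3⟩)
      · exact ⟨⟨h1, by omega⟩, h3⟩
      · exact ⟨⟨by omega, h2⟩, h3, hbig p h1⟩
  have hdis : Disjoint ((Icc 3 z).filter (fun p : ℕ => p.Prime ∧ ¬ (p : ℤ) ∣ a)) ((Ioc z N).filter Nat.Prime) := by
    rw [disjoint_left]
    intro p hp hp'
    rw [mem_filter, mem_Icc] at hp
    rw [mem_filter, mem_Ioc] at hp'
    omega
  rw [e1, e2, prod_union hdis]
  unfold PJ
  ring

lemma Sing_cf (a : ℕ) (b : ℤ) (n : ℕ) (h : ∀ p : ℕ, p.Prime → roots a b n p < p) {z : ℕ} (hz : 2 ≤ z) :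
    Sing a b n z = 2 * cf a b (-n) z := by
  rw [← cf_eq (a := a) (b := b) (c := -n) _ _ _ hz]
  · unfold Sing fac
    apply prod_congr rfl
    intro p _
    rw [roots_om]
  · rintro ⟨h1, h2⟩
    have h3 := h 2 Nat.prime_two
    have h4 : roots a b n 2 = 2 := by
      unfold roots g
      rw [filter_true_of_mem, card_range]
      intro m hm
      rw [mem_range] at hm
      have h5 : Even (n : ℤ) := by simpa using h2
      obtain ⟨u, hu⟩ := h1
      obtain ⟨v, hv⟩ := h5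
      interval_cases m
      · exact ⟨-v, by push_cast; linarith⟩
      · exact ⟨u - v, by push_cast; linarith⟩
    omega
  · intro p hp hpa hpb hpc
    have h3 := h p hp
    have h4 : roots a b n p = p := by
      unfold roots g
      rw [filter_true_of_mem, card_range]
      intro m _
      rw [sub_eq_add_neg]
      exact dvd_add (dvd_add (Dvd.dvd.mul_right hpa _) (Dvd.dvd.mul_right hpb _)) hpc
    omega
  · intro p hp hp2 hpa
    have := om_leg a b (-n) hp (by omega) hpa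
    exact_mod_cast this

open Classical in
/-- the tail of the product is small for almost all `n` -/
theorem tailA (a : ℕ) (b : ℤ) (ha : 0 < a) (δ ε : ℝ) (hδ : 0 < δ) (hε : 0 < ε) : ∃ z0 : ℕ, ∀ z : ℕ, z0 ≤ z →
    ∃ N₀ : ℕ, ∀ N : ℕ, N₀ ≤ N →
      (((Icc 1 N).filter (fun n : ℕ => ¬ (¬ IsSquare (b ^ 2 - 4 * a * (-n : ℤ)) ∧
        ∀ᶠ M in atTop, |SJ (b ^ 2 - 4 * a * (-n : ℤ)) z M| ≤ δ))).card : ℝ) ≤ ε * N := by
  obtain ⟨X₀, hX⟩ := tail_abs (-(a : ℤ)) (by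
    have : (0 : ℤ) < a := by exact_mod_cast ha
    omega) b (1 / 4) (by norm_num) 1 11
  obtain ⟨z1, hz1⟩ : ∃ z1 : ℕ, 64 / (ε * δ ^ 2) ≤ (z1 : ℝ) := ⟨⌈64 / (ε * δ ^ 2)⌉₊, Nat.le_ceil _⟩
  refine ⟨z1 + 4 * a + 2, fun z hz => ?_⟩
  set μ : ℝ := min (1 / 2) (min (δ / 2) (min (ε / 4) (min (ε * δ ^ 2 / 16) (1 / (z + 2 : ℝ))))) with hμ
  have hμ0 : 0 < μ := by
    rw [hμ]
    refine lt_min (by norm_num) (lt_min (by positivity) (lt_min (by positivity) (lt_min (by positivity) (by positivity))))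
  have m1 : μ ≤ 1 / 2 := min_le_left _ _
  have m2 : μ ≤ δ / 2 := (min_le_right _ _).trans (min_le_left _ _)
  have m3 : μ ≤ ε / 4 := (min_le_right _ _).trans ((min_le_right _ _).trans (min_le_left _ _))
  have m4 : μ ≤ ε * δ ^ 2 / 16 := (min_le_right _ _).trans ((min_le_right _ _).trans ((min_le_right _ _).trans (min_le_left _ _)))
  have m5 : μ ≤ 1 / (z + 2 : ℝ) := (min_le_right _ _).trans ((min_le_right _ _).trans ((min_le_right _ _).trans (min_le_right _ _)))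
  obtain ⟨N1, hN1, hev⟩ := ev 11 μ hμ0
  refine ⟨X₀ + N1, fun N hN => ?_⟩
  obtain ⟨g1, g2⟩ := hev N (by omega)
  have hNr : (0 : ℝ) < N := by exact_mod_cast (by omega : 0 < N)
  have hN1r : (1 : ℝ) ≤ N := by exact_mod_cast (by omega : 1 ≤ N)
  set Λ : ℝ := Real.log N with hΛ
  have l1 : 2 ≤ Λ := by
    refine le_trans ?_ g2
    rw [le_inv_comm₀ (by norm_num) hμ0]
    linarith
  have hΛ0 : 0 < Λ := by linarith
  have l2 : 1 / Λ ≤ μ := by
    rw [one_div]
    exact inv_le_of_inv_le₀ hμ0 g2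
  have l3 : (z : ℝ) + 2 ≤ Λ := by
    have h1 := inv_anti₀ hμ0 m5
    rw [one_div, inv_inv] at h1
    exact h1.trans g2
  obtain ⟨w, hw1, hw2⟩ : ∃ w : ℕ, Λ ^ 10 ≤ (w : ℝ) ∧ (w : ℝ) ≤ Λ ^ 10 + 1 :=
    ⟨⌈Λ ^ 10⌉₊, Nat.le_ceil _, (Nat.ceil_lt_add_one (by positivity)).le⟩
  have hw3 : (w : ℝ) ≤ Λ ^ 11 := by
    have h1 : (1 : ℝ) ≤ Λ ^ 10 := one_le_pow₀ (by linarith)
    have h2 : Λ ^ 11 = Λ ^ 10 * Λ := pow_succ _ _
    nlinarith
  have hzw : z ≤ w := by
    have h1 : Λ ≤ Λ ^ 10 := le_self_pow₀ (by linarith) (by norm_num)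
    have h2 : (z : ℝ) ≤ w := by linarith
    exact_mod_cast h2
  obtain ⟨Ex, e1, e2⟩ := hX N (by omega) w (by simpa using hw1) hw3 1 le_rfl (by
    push_cast
    apply Real.one_le_rpow hN1r
    norm_num) 0
  have haz : (4 * (a : ℤ)) < (z : ℤ) := by
    have : 4 * a < z := by omega
    exact_mod_cast this
  have hP : ∀ p ∈ (Ioc z w).filter Nat.Prime, p.Prime ∧ p ≠ 2 ∧ z < p ∧ p ≤ w ∧ ¬ (p : ℤ) ∣ 4 * (a : ℤ) := by
    intro p hp
    rw [mem_filter, mem_Ioc] at hp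
    refine ⟨hp.2, by omega, hp.1.1, hp.1.2, fun h => ?_⟩
    have := Int.le_of_dvd (by omega) h
    omega
  have hlow := low_count_lin (b ^ 2) (4 * (a : ℤ)) ((Ioc z w).filter Nat.Prime) z w (N + 1) (by omega) hP (δ / 2) (by positivity)
  set E1 : Finset ℕ := (range (N + 1)).filter (fun c : ℕ => δ / 2 < |∑ p ∈ (Ioc z w).filter Nat.Prime,
    (jacobiSym (b ^ 2 + 4 * (a : ℤ) * (c : ℤ)) p : ℝ) / p|) with hE1
  set E2 : Finset ℕ := Ex.image Int.toNat with hE2
  have hsub : (Icc 1 N).filter (fun n : ℕ => ¬ (¬ IsSquare (b ^ 2 - 4 * a * (-n : ℤ)) ∧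
        ∀ᶠ M in atTop, |SJ (b ^ 2 - 4 * a * (-n : ℤ)) z M| ≤ δ)) ⊆ E1 ∪ E2 := by
    intro n hn
    rw [mem_filter, mem_Icc] at hn
    by_contra hcon
    rw [mem_union] at hcon
    push Not at hcon
    obtain ⟨c1, c2⟩ := hcon
    apply hn.2
    have hnEx : (n : ℤ) ∉ Ex := by
      intro h
      apply c2
      rw [hE2, mem_image]
      exact ⟨n, h, Int.toNat_natCast n⟩
    obtain ⟨d1, d2⟩ := e2 n (by exact_mod_cast hn.1.1) (by exact_mod_cast hn.1.2) (by
      have : ((1 : ℕ) : ℤ) = 1 := rfl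
      rw [this]
      exact Int.modEq_one) hnEx
    have hD : b ^ 2 - 4 * -(a : ℤ) * (n : ℤ) = b ^ 2 - 4 * a * (-n : ℤ) := by ring
    rw [hD] at d1 d2
    refine ⟨d1, ?_⟩
    have hD2 : b ^ 2 + 4 * (a : ℤ) * (n : ℤ) = b ^ 2 - 4 * a * (-n : ℤ) := by ring
    have d3 : |SJ (b ^ 2 - 4 * a * (-n : ℤ)) z w| ≤ δ / 2 := by
      rw [hE1, mem_filter] at c1
      push Not at c1
      have := c1 (mem_range.2 (by omega))
      rw [hD2] at this
      exact this
    filter_upwards [d2, eventually_ge_atTop w] with M h1 hM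
    rw [SJ_split _ hzw hM]
    have h2 : 1 / Λ ^ 1 ≤ δ / 2 := by
      rw [pow_one]
      exact l2.trans m2
    exact (abs_add_le _ _).trans (by linarith)
  have q1 : (E1.card : ℝ) ≤ ε / 2 * N := by
    refine hlow.trans ?_
    rw [div_le_iff₀ (by positivity)]
    have h1 : 2 * (((N + 1 : ℕ) : ℝ) / z) ≤ ε * δ ^ 2 / 16 * N := by
      have hz0 : (0 : ℝ) < z := by exact_mod_cast (by omega : 0 < z)
      have h2 : 64 / (ε * δ ^ 2) ≤ z := hz1.trans (by exact_mod_cast (by omega : z1 ≤ z))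
      rw [div_le_iff₀ (by positivity)] at h2
      rw [mul_div_assoc', div_le_iff₀ hz0]
      push_cast
      nlinarith
    have h3 : (w : ℝ) ^ 2 ≤ ε * δ ^ 2 / 16 * N := by
      calc (w : ℝ) ^ 2 ≤ (Λ ^ 11 + 1) ^ 2 := by
            apply pow_le_pow_left₀ (Nat.cast_nonneg _)
            linarith
        _ ≤ μ * N := g1
        _ ≤ _ := mul_le_mul_of_nonneg_right m4 hNr.le
    have h4 : ε / 2 * (N : ℝ) * (δ / 2) ^ 2 = ε * δ ^ 2 / 8 * N := by ring
    rw [h4]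
    linarith
  have q2 : (E2.card : ℝ) ≤ ε / 4 * N := by
    have h1 : (E2.card : ℝ) ≤ Ex.card := by exact_mod_cast card_image_le
    refine h1.trans (e1.trans ?_)
    have h2 : (N : ℝ) / ((1 : ℕ) * Λ ^ 1) = 1 / Λ * N := by
      push_cast
      rw [pow_one, one_mul]
      ring
    rw [h2]
    exact mul_le_mul_of_nonneg_right (l2.trans m3) hNr.le
  calc _ ≤ (((E1 ∪ E2).card : ℕ) : ℝ) := Nat.cast_le.2 (card_le_card hsub)
    _ ≤ ((E1.card + E2.card : ℕ) : ℝ) := Nat.cast_le.2 (card_union_le _ _)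
    _ ≤ ε * N := by
        rw [Nat.cast_add]
        have := mul_pos hε hNr
        linarith

open Classical in
/-- the asymptotic formula with the constant of Conjecture F -/
theorem partF (a : ℕ) (b : ℤ) (ha : 0 < a) (B : ℕ) (ε : ℝ) (hε : 0 < ε) : ∃ A : ℕ, ∀ N : ℕ, A ≤ N →
    ∀ x : ℕ, A * Real.log N ≤ x → (x : ℝ) ≤ Real.log N ^ B →
    (((Icc 1 N).filter (fun n => (∀ p : ℕ, p.Prime → roots a b n p < p) ∧
      ¬ ∃ C : ℝ, 0 < C ∧ Tendsto (fun z : ℕ => cf a b (-n) z) atTop (𝓝 C) ∧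
        ∀ y ≤ x, |reps a b n y * (Real.log N / 2) - 2 * C * y| ≤ ε * x)).card : ℝ) ≤ ε * N := by
  set K0 : ℝ := 8 / ε with hK0
  have hK : 0 < K0 := by rw [hK0]; positivity
  set δ : ℝ := min (1 / 4) (ε ^ 2 / 64) with hδ
  have hδ0 : 0 < δ := lt_min (by norm_num) (by positivity)
  have hδ1 : δ ≤ 1 / 4 := min_le_left _ _
  have hδ2 : δ ≤ ε ^ 2 / 64 := min_le_right _ _
  obtain ⟨z1, h1⟩ := partA a b ha B (ε / 4) (by positivity)
  obtain ⟨z2, h2⟩ := tailA a b ha δ (ε / 4) hδ0 (by positivity)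
  obtain ⟨z3, h3⟩ : ∃ z3 : ℕ, 5 / δ ≤ (z3 : ℝ) := ⟨⌈5 / δ⌉₊, Nat.le_ceil _⟩
  obtain ⟨z, hz⟩ : ∃ z : ℕ, z = z1 + z2 + z3 + a + 2 := ⟨_, rfl⟩
  obtain ⟨A1, f1⟩ := h1 z (by omega)
  obtain ⟨N2, f2⟩ := h2 z (by omega)
  refine ⟨A1 + N2 + primorial z + 1, fun N hN x hx1 hx2 => ?_⟩
  have hNr : (0 : ℝ) < N := by exact_mod_cast (by omega : 0 < N)
  have hlog0 : 0 ≤ Real.log N := Real.log_natCast_nonneg N
  have hx1' : (A1 : ℝ) * Real.log N ≤ x := by
    refine le_trans (mul_le_mul_of_nonneg_right ?_ hlog0) hx1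
    exact_mod_cast (by omega : A1 ≤ A1 + N2 + primorial z + 1)
  have k1 := f1 N (by omega) x hx1' hx2
  have k2 := f2 N (by omega)
  have k3 := large a b z N (by omega) K0 hK
  have hz0 : (0 : ℝ) < z := by exact_mod_cast (by omega : 0 < z)
  have h5z : 5 / (z : ℝ) ≤ δ := by
    rw [div_le_iff₀ hδ0] at h3
    rw [div_le_iff₀ hz0]
    have : (z3 : ℝ) ≤ z := by exact_mod_cast (by omega : z3 ≤ z)
    nlinarith
  have hsub : (Icc 1 N).filter (fun n => (∀ p : ℕ, p.Prime → roots a b n p < p) ∧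
      ¬ ∃ C : ℝ, 0 < C ∧ Tendsto (fun z : ℕ => cf a b (-n) z) atTop (𝓝 C) ∧
        ∀ y ≤ x, |reps a b n y * (Real.log N / 2) - 2 * C * y| ≤ ε * x) ⊆
      ((Icc 1 N).filter (fun n => ¬ ∀ y ≤ x, |reps a b n y * (Real.log N / 2) - Sing a b n z * y| ≤ ε / 4 * x) ∪
      (Icc 1 N).filter (fun n : ℕ => ¬ (¬ IsSquare (b ^ 2 - 4 * a * (-n : ℤ)) ∧
        ∀ᶠ M in atTop, |SJ (b ^ 2 - 4 * a * (-n : ℤ)) z M| ≤ δ))) ∪
      (Icc 1 N).filter (fun n => K0 < Sing a b n z) := by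
    intro n hn
    rw [mem_filter] at hn
    by_contra hcon
    rw [mem_union, mem_union, mem_filter, mem_filter, mem_filter] at hcon
    push Not at hcon
    obtain ⟨⟨c1, c2⟩, c3⟩ := hcon
    apply hn.2.2
    have c1' := c1 hn.1
    obtain ⟨d1, d2⟩ := c2 hn.1
    have c3' := c3 hn.1
    have d1' : ¬ IsSquare (b ^ 2 - 4 * a * (-n : ℤ)) := by simpa using d1
    obtain ⟨L, hL0, hL, hL1⟩ := PJ_lim (δ := δ) d1' (by omega : 2 ≤ z) hδ0.le (by linarith) d2
    have hS := Sing_cf a b n hn.2.1 (z := z) (by omega)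
    have hSp := Sing_pos a b n z hn.2.1
    have hc0 : 0 < cf a b (-n) z := by linarith
    refine ⟨cf a b (-n) z * L, mul_pos hc0 hL0, ?_, fun y hy => ?_⟩
    · refine (hL.const_mul (cf a b (-n) z)).congr' ?_
      filter_upwards [eventually_ge_atTop z] with M hM
      rw [cf_split (by exact_mod_cast ha) (by omega) (by exact_mod_cast (by omega : a ≤ z)) hM]
    · have g1 := c1' y hy
      have hyx : (y : ℝ) ≤ x := by exact_mod_cast hy
      have hy0 : (0 : ℝ) ≤ y := Nat.cast_nonneg _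
      have e1 : reps a b n y * (Real.log N / 2) - 2 * (cf a b (-n) z * L) * y =
          (reps a b n y * (Real.log N / 2) - Sing a b n z * y) - Sing a b n z * (L - 1) * y := by
        rw [hS]
        ring
      rw [e1]
      refine (abs_sub _ _).trans ?_
      have e2 : |Sing a b n z * (L - 1) * y| ≤ K0 * (4 * δ) * x := by
        rw [abs_mul, abs_mul, abs_of_pos hSp, abs_of_nonneg hy0]
        apply mul_le_mul _ hyx hy0 (by positivity)
        apply mul_le_mul c3' _ (abs_nonneg _) hK.le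
        linarith
      have e3 : K0 * (4 * δ) ≤ ε / 2 := by
        calc K0 * (4 * δ) ≤ K0 * (4 * (ε ^ 2 / 64)) := by
              apply mul_le_mul_of_nonneg_left _ hK.le
              linarith
          _ = ε / 2 := by
              rw [hK0]
              field_simp
              norm_num
      have e4 : K0 * (4 * δ) * x ≤ ε / 2 * x := mul_le_mul_of_nonneg_right e3 (Nat.cast_nonneg _)
      have e5 : 0 ≤ ε * (x : ℝ) := by positivity
      linarith
  have q3 : (((Icc 1 N).filter (fun n => K0 < Sing a b n z)).card : ℝ) ≤ ε / 4 * N := by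
    have e1 : 2 / K0 = ε / 4 := by rw [hK0]; field_simp; norm_num
    rwa [e1] at k3
  calc _ ≤ _ := Nat.cast_le.2 (card_le_card hsub)
    _ ≤ (((((Icc 1 N).filter (fun n => ¬ ∀ y ≤ x, |reps a b n y * (Real.log N / 2) - Sing a b n z * y| ≤ ε / 4 * x)).card +
      ((Icc 1 N).filter (fun n : ℕ => ¬ (¬ IsSquare (b ^ 2 - 4 * a * (-n : ℤ)) ∧
        ∀ᶠ M in atTop, |SJ (b ^ 2 - 4 * a * (-n : ℤ)) z M| ≤ δ))).card) +
      ((Icc 1 N).filter (fun n => K0 < Sing a b n z)).card : ℕ) : ℝ) := by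
        apply Nat.cast_le.2
        refine (card_union_le _ _).trans (Nat.add_le_add_right ?_ _)
        exact card_union_le _ _
    _ ≤ ε * N := by
        rw [Nat.cast_add, Nat.cast_add]
        have := mul_pos hε hNr
        linarith

end Pool.Agent.Helper2K9.FP
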