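import Mathlib

set_option autoImplicit false

/-! The truncated singular series of `a t² + b t - n` on average over `n`. -/

namespace Pool.Agent.Helper2K9.FP

open Finset

/-- the polynomial without its constant term -/
def g (a : ℕ) (b t : ℤ) : ℤ := a * t ^ 2 + b * t

/-- the number of roots of `a m² + b m - n` modulo `p` -/
def roots (a : ℕ) (b : ℤ) (n p : ℕ) : ℕ := ((range p).filter (fun m : ℕ => (p : ℤ) ∣ g a b m - n)).card

variable (a : ℕ) (b : ℤ)

lemma roots_mod {n n' p : ℕ} (h : n ≡ n' [MOD p]) : roots a b n p = roots a b n' p := by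
  unfold roots
  congr 1
  apply filter_congr
  intro m _
  have h1 : (n : ℤ) ≡ n' [ZMOD p] := (Int.natCast_modEq_iff).2 h
  exact Int.ModEq.dvd_iff (h1.sub_left _)

lemma sum_roots (p : ℕ) (hp : 0 < p) : ∑ n ∈ range p, roots a b n p = p := by
  have hp' : (0 : ℤ) < p := by exact_mod_cast hp
  have h1 : ∀ m ∈ range p, ((range p).filter (fun n : ℕ => (p : ℤ) ∣ g a b m - n)).card = 1 := by
    intro m _
    rw [card_eq_one]
    have key : (((g a b m % p).toNat : ℕ) : ℤ) = g a b m % p := Int.toNat_of_nonneg (Int.emod_nonneg _ hp'.ne')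
    have hlt := Int.emod_lt_of_pos (g a b m) hp'
    refine ⟨(g a b m % p).toNat, ?_⟩
    ext n
    rw [mem_filter, mem_range, mem_singleton]
    constructor
    · rintro ⟨h1, h2⟩
      have h3 : g a b m % p = (n : ℤ) % p := by
        have := (Int.modEq_iff_dvd.2 h2)
        exact this.symm
      have h4 : (n : ℤ) % p = n := Int.emod_eq_of_lt (by positivity) (by exact_mod_cast h1)
      rw [h4] at h3
      omega
    · rintro rfl
      refine ⟨by omega, ?_⟩
      rw [key]
      exact Int.dvd_self_sub_emod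
  unfold roots
  simp only [card_filter]
  rw [sum_comm]
  simp only [← card_filter]
  rw [sum_congr rfl h1]
  simp

lemma roots_le_self (n p : ℕ) : roots a b n p ≤ p := by
  unfold roots
  refine (card_filter_le _ _).trans ?_
  rw [card_range]

lemma roots_cases (n p : ℕ) (hp : p.Prime) : roots a b n p ≤ 2 ∨ roots a b n p = p := by
  classical
  have : Fact p.Prime := ⟨hp⟩
  set P : Polynomial (ZMod p) := Polynomial.C (a : ZMod p) * Polynomial.X ^ 2 + Polynomial.C (b : ZMod p) * Polynomial.X +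
    Polynomial.C (-(n : ZMod p)) with hP
  have hev : ∀ m : ℕ, (p : ℤ) ∣ g a b m - n ↔ P.eval (m : ZMod p) = 0 := by
    intro m
    rw [← ZMod.intCast_zmod_eq_zero_iff_dvd]
    rw [hP]
    unfold g
    simp only [Polynomial.eval_add, Polynomial.eval_mul, Polynomial.eval_C, Polynomial.eval_pow, Polynomial.eval_X]
    push_cast
    rw [sub_eq_add_neg]
  by_cases h0 : P = 0
  · right
    unfold roots
    rw [filter_true_of_mem, card_range]
    intro m _
    rw [hev, h0]
    simp
  · left
    have hdeg : P.natDegree ≤ 2 := by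
      rw [hP]
      exact Polynomial.natDegree_quadratic_le
    refine le_trans ?_ ((Polynomial.card_roots' P).trans hdeg)
    refine le_trans ?_ (Multiset.toFinset_card_le _)
    unfold roots
    apply card_le_card_of_injOn (fun m : ℕ => (m : ZMod p))
    · intro m hm
      rw [mem_coe, mem_filter] at hm
      rw [mem_coe, Multiset.mem_toFinset, Polynomial.mem_roots h0]
      exact (hev m).1 hm.2
    · intro m hm m' hm' h
      rw [mem_coe, mem_filter, mem_range] at hm hm'
      have h1 := (ZMod.natCast_eq_natCast_iff' m m' p).1 h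
      rwa [Nat.mod_eq_of_lt hm.1, Nat.mod_eq_of_lt hm'.1] at h1

/-- the factor of the singular series at `p` -/
noncomputable def fac (n p : ℕ) : ℝ := (1 - (roots a b n p : ℝ) / p) / (1 - 1 / (p : ℝ))

/-- the singular series, truncated at `z` -/
noncomputable def Sing (n z : ℕ) : ℝ := ∏ p ∈ (Icc 1 z).filter Nat.Prime, fac a b n p

lemma fac_nonneg (n p : ℕ) (hp : p.Prime) : 0 ≤ fac a b n p := by
  unfold fac
  have hp0 : (0 : ℝ) < p := by exact_mod_cast hp.pos
  have hp1 : (1 : ℝ) < p := by exact_mod_cast hp.one_lt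
  apply div_nonneg
  · rw [sub_nonneg, div_le_one hp0]
    exact_mod_cast roots_le_self a b n p
  · rw [sub_nonneg, div_le_one hp0]
    exact hp1.le

lemma fac_pos (n p : ℕ) (hp : p.Prime) (h : roots a b n p < p) : 0 < fac a b n p := by
  unfold fac
  have hp0 : (0 : ℝ) < p := by exact_mod_cast hp.pos
  have hp1 : (1 : ℝ) < p := by exact_mod_cast hp.one_lt
  apply div_pos
  · rw [sub_pos, div_lt_one hp0]
    exact_mod_cast h
  · rw [sub_pos, div_lt_one hp0]
    exact hp1

lemma Sing_nonneg (n z : ℕ) : 0 ≤ Sing a b n z := prod_nonneg fun p hp => fac_nonneg a b n p (mem_filter.1 hp).2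

lemma Sing_pos (n z : ℕ) (h : ∀ p : ℕ, p.Prime → roots a b n p < p) : 0 < Sing a b n z :=
  prod_pos fun p hp => fac_pos a b n p (mem_filter.1 hp).2 (h p (mem_filter.1 hp).2)

lemma sum_fac (p : ℕ) (hp : p.Prime) : ∑ n ∈ range p, fac a b n p = p := by
  have hp0 : (0 : ℝ) < p := by exact_mod_cast hp.pos
  have hp1 : (1 : ℝ) < p := by exact_mod_cast hp.one_lt
  have h1 : ∑ n ∈ range p, (roots a b n p : ℝ) = p := by
    have := sum_roots a b p hp.pos
    exact_mod_cast this
  unfold fac
  rw [← sum_div, sum_sub_distrib, ← sum_div, h1, div_self hp0.ne']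
  simp only [sum_const, card_range, nsmul_eq_mul, mul_one]
  rw [div_eq_iff (by rw [sub_ne_zero]; intro h; rw [eq_div_iff hp0.ne'] at h; linarith)]
  field_simp

lemma fac_inv_le (n p : ℕ) (hp : p.Prime) (h3 : 3 ≤ p) : (fac a b n p)⁻¹ ≤
    1 + ((roots a b n p : ℝ) - 1) / (p - 1) + 1 / (((p : ℝ) - 1) * (p - 2)) := by
  have hp0 : (0 : ℝ) < p := by exact_mod_cast hp.pos
  have hp1 : (1 : ℝ) < p := by exact_mod_cast hp.one_lt
  have h3' : (3 : ℝ) ≤ p := by exact_mod_cast h3
  rcases roots_cases a b n p hp with hr | hr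
  · have hr' : (roots a b n p : ℝ) ≤ 2 := by exact_mod_cast hr
    have hr0 : (0 : ℝ) ≤ roots a b n p := Nat.cast_nonneg _
    have hsq : ((roots a b n p : ℝ) - 1) ^ 2 ≤ 1 := by nlinarith
    have e : (fac a b n p)⁻¹ = (p - 1) / (p - roots a b n p) := by
      unfold fac
      rw [inv_div]
      rw [div_eq_div_iff (by
        have : (roots a b n p : ℝ) / p < 1 := by rw [div_lt_one hp0]; linarith
        linarith) (by linarith)]
      field_simp
    rw [e]
    have hpr : (0 : ℝ) < p - roots a b n p := by linarith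
    have e2 : ((p : ℝ) - 1) / (p - roots a b n p) = 1 + ((roots a b n p : ℝ) - 1) / (p - 1) +
        ((roots a b n p : ℝ) - 1) ^ 2 / ((p - 1) * (p - roots a b n p)) := by
      have hp1' : (0 : ℝ) < p - 1 := by linarith
      field_simp
      ring
    rw [e2]
    have h4 : ((roots a b n p : ℝ) - 1) ^ 2 / ((p - 1) * (p - roots a b n p)) ≤ 1 / (((p : ℝ) - 1) * (p - 2)) := by
      apply div_le_div₀ zero_le_one hsq
      · apply mul_pos <;> linarith
      · apply mul_le_mul_of_nonneg_left _ (by linarith)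
        linarith
    linarith
  · have e : fac a b n p = 0 := by
      unfold fac
      rw [hr, div_self hp0.ne', sub_self, zero_div]
    rw [e, inv_zero, hr]
    have h4 : (0 : ℝ) ≤ ((p : ℝ) - 1) / (p - 1) := by apply div_nonneg <;> linarith
    have h5 : (0 : ℝ) ≤ 1 / (((p : ℝ) - 1) * (p - 2)) := by
      apply div_nonneg zero_le_one
      apply mul_nonneg <;> linarith
    linarith

lemma fac_inv_two (n : ℕ) : (fac a b n 2)⁻¹ ≤ 1 := by
  have h := roots_le_self a b n 2
  unfold fac
  interval_cases roots a b n 2 <;> norm_num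

lemma sum_inv (p : ℕ) (hp : p.Prime) : ∑ n ∈ range p, (fac a b n p)⁻¹ ≤ p * (1 + 1 / (((p : ℝ) - 1) * (p - 2))) := by
  have hp0 : (0 : ℝ) < p := by exact_mod_cast hp.pos
  have h1 : ∑ n ∈ range p, (roots a b n p : ℝ) = p := by
    have := sum_roots a b p hp.pos
    exact_mod_cast this
  rcases eq_or_ne p 2 with rfl | h2
  · calc ∑ n ∈ range 2, (fac a b n 2)⁻¹ ≤ ∑ n ∈ range 2, (1 : ℝ) := sum_le_sum fun n _ => fac_inv_two a b n
      _ = _ := by simp
  · have h3 : 3 ≤ p := lt_of_le_of_ne hp.two_le (Ne.symm h2)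
    calc ∑ n ∈ range p, (fac a b n p)⁻¹ ≤ ∑ n ∈ range p, (1 + ((roots a b n p : ℝ) - 1) / (p - 1) + 1 / (((p : ℝ) - 1) * (p - 2))) :=
          sum_le_sum fun n _ => fac_inv_le a b n p hp h3
      _ = _ := by
          rw [sum_add_distrib, sum_add_distrib, ← sum_div, sum_sub_distrib, h1]
          simp only [sum_const, card_range, nsmul_eq_mul, mul_one, sub_self, zero_div, add_zero]
          ring

lemma crt_sum (u v : ℕ) (hu : 0 < u) (hv : 0 < v) (huv : Nat.Coprime u v) (F G : ℕ → ℝ)
    (hF : ∀ n m : ℕ, n ≡ m [MOD u] → F n = F m) (hG : ∀ n m : ℕ, n ≡ m [MOD v] → G n = G m) :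
    ∑ n ∈ range (u * v), F n * G n = (∑ n ∈ range u, F n) * (∑ n ∈ range v, G n) := by
  rw [sum_mul_sum, ← sum_product']
  apply sum_bij' (fun n _ => (n % u, n % v)) (fun q _ => (Nat.chineseRemainder huv q.1 q.2 : ℕ))
  · intro n _
    rw [mem_product, mem_range, mem_range]
    exact ⟨Nat.mod_lt _ hu, Nat.mod_lt _ hv⟩
  · intro q hq
    rw [mem_range]
    exact Nat.chineseRemainder_lt_mul huv _ _ hu.ne' hv.ne'
  · intro n hn
    rw [mem_range] at hn
    simp only
    have h1 := (Nat.chineseRemainder huv (n % u) (n % v)).2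
    have h2 : (Nat.chineseRemainder huv (n % u) (n % v) : ℕ) ≡ n [MOD u * v] :=
      (Nat.modEq_and_modEq_iff_modEq_mul huv).1 ⟨h1.1.trans (Nat.mod_modEq n u), h1.2.trans (Nat.mod_modEq n v)⟩
    exact Nat.ModEq.eq_of_lt_of_lt h2 (Nat.chineseRemainder_lt_mul huv _ _ hu.ne' hv.ne') hn
  · intro q hq
    rw [mem_product, mem_range, mem_range] at hq
    have h1 := (Nat.chineseRemainder huv q.1 q.2).2
    apply Prod.ext
    · have h2 := h1.1
      unfold Nat.ModEq at h2
      simp only
      rw [h2, Nat.mod_eq_of_lt hq.1]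
    · have h2 := h1.2
      unfold Nat.ModEq at h2
      simp only
      rw [h2, Nat.mod_eq_of_lt hq.2]
  · intro n _
    simp only
    rw [hF n (n % u) (Nat.mod_modEq n u).symm, hG n (n % v) (Nat.mod_modEq n v).symm]

lemma avg_prod (P : Finset ℕ) (hP : ∀ p ∈ P, p.Prime) (f : ℕ → ℕ → ℝ)
    (hf : ∀ p n m : ℕ, n ≡ m [MOD p] → f p n = f p m) :
    ∑ n ∈ range (∏ p ∈ P, p), ∏ p ∈ P, f p n = ∏ p ∈ P, ∑ n ∈ range p, f p n := by
  classical
  induction P using Finset.induction_on with
  | empty => simp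
  | insert q P hq ih =>
    have ih' := ih (fun p hp => hP p (mem_insert_of_mem hp))
    rw [prod_insert hq, prod_insert hq, ← ih']
    have hq0 : 0 < q := (hP q (mem_insert_self _ _)).pos
    have hP0 : 0 < ∏ p ∈ P, p := prod_pos fun p hp => (hP p (mem_insert_of_mem hp)).pos
    have hcop : Nat.Coprime q (∏ p ∈ P, p) := by
      apply Nat.Coprime.prod_right
      intro p hp
      rw [Nat.coprime_primes (hP q (mem_insert_self _ _)) (hP p (mem_insert_of_mem hp))]
      intro h
      rw [h] at hq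
      exact hq hp
    rw [← crt_sum q (∏ p ∈ P, p) hq0 hP0 hcop (f q) (fun n => ∏ p ∈ P, f p n) (hf q) (by
      intro n m h
      apply prod_congr rfl
      intro p hp
      exact hf p n m (h.of_dvd (dvd_prod_of_mem _ hp)))]
    apply sum_congr rfl
    intro n _
    rw [prod_insert hq]

lemma prod_primes (z : ℕ) : ∏ p ∈ (Icc 1 z).filter Nat.Prime, p = primorial z := by
  unfold primorial
  apply prod_congr _ (fun _ _ => rfl)
  ext p
  rw [mem_filter, mem_Icc, mem_filter, mem_range]
  constructor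
  · rintro ⟨⟨_, h2⟩, h3⟩; exact ⟨by omega, h3⟩
  · rintro ⟨h2, h3⟩; exact ⟨⟨h3.one_le, by omega⟩, h3⟩

lemma sum_Sing (z : ℕ) : ∑ n ∈ range (primorial z), Sing a b n z = primorial z := by
  rw [← prod_primes]
  unfold Sing
  rw [avg_prod _ (fun p hp => (mem_filter.1 hp).2) (fun p n => fac a b n p) (fun p n m h => by
    unfold fac
    rw [roots_mod a b h])]
  rw [prod_congr rfl (fun p hp => sum_fac a b p (mem_filter.1 hp).2)]
  push_cast
  rfl

lemma tele (z : ℕ) : ∑ p ∈ (Icc 1 z).filter Nat.Prime, 1 / (((p : ℝ) - 1) * (p - 2)) ≤ 1 := by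
  have h1 : ∑ p ∈ (Icc 1 z).filter Nat.Prime, 1 / (((p : ℝ) - 1) * (p - 2)) ≤
      ∑ p ∈ Icc 3 (z + 3), 1 / (((p : ℝ) - 1) * (p - 2)) := by
    have e : ∑ p ∈ (Icc 1 z).filter Nat.Prime, 1 / (((p : ℝ) - 1) * (p - 2)) =
        ∑ p ∈ ((Icc 1 z).filter Nat.Prime).filter (fun p => p ≠ 2), 1 / (((p : ℝ) - 1) * (p - 2)) := by
      rw [sum_filter (s := (Icc 1 z).filter Nat.Prime)]
      apply sum_congr rfl
      intro p _
      split_ifs with h
      · rfl
      · push Not at h
        rw [h]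
        norm_num
    rw [e]
    apply sum_le_sum_of_subset_of_nonneg
    · intro p hp
      rw [mem_filter, mem_filter, mem_Icc] at hp
      rw [mem_Icc]
      have := hp.1.2.two_le
      omega
    · intro p hp _
      rw [mem_Icc] at hp
      have : (3 : ℝ) ≤ p := by exact_mod_cast hp.1
      apply div_nonneg zero_le_one
      apply mul_nonneg <;> linarith
  have h2 : ∀ w : ℕ, ∑ p ∈ Icc 3 (w + 3), 1 / (((p : ℝ) - 1) * (p - 2)) = 1 - 1 / (w + 2) := by
    intro w
    induction w with
    | zero => norm_num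
    | succ w ih =>
      rw [show w + 1 + 3 = (w + 3) + 1 by ring, sum_Icc_succ_top (by omega), ih]
      push_cast
      have : (0 : ℝ) ≤ w := Nat.cast_nonneg _
      have e1 : (w : ℝ) + 3 + 1 - 1 = w + 3 := by ring
      have e2 : (w : ℝ) + 3 + 1 - 2 = w + 2 := by ring
      rw [e1, e2]
      field_simp
      ring
  refine h1.trans ?_
  rw [h2]
  have : (0 : ℝ) ≤ 1 / ((z : ℝ) + 2) := by positivity
  linarith

lemma sum_Sing_inv (z : ℕ) : ∑ n ∈ range (primorial z), (Sing a b n z)⁻¹ ≤ 3 * primorial z := by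
  rw [← prod_primes]
  have e : ∀ n, (Sing a b n z)⁻¹ = ∏ p ∈ (Icc 1 z).filter Nat.Prime, (fac a b n p)⁻¹ := by
    intro n
    unfold Sing
    rw [prod_inv_distrib]
  simp only [e]
  rw [avg_prod _ (fun p hp => (mem_filter.1 hp).2) (fun p n => (fac a b n p)⁻¹) (fun p n m h => by
    unfold fac
    rw [roots_mod a b h])]
  calc ∏ p ∈ (Icc 1 z).filter Nat.Prime, ∑ n ∈ range p, (fac a b n p)⁻¹ ≤
      ∏ p ∈ (Icc 1 z).filter Nat.Prime, ((p : ℝ) * Real.exp (1 / (((p : ℝ) - 1) * (p - 2)))) := by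
        apply Finset.prod_le_prod
        · intro p hp
          exact sum_nonneg fun n _ => inv_nonneg.2 (fac_nonneg a b n p (mem_filter.1 hp).2)
        · intro p hp
          refine (sum_inv a b p (mem_filter.1 hp).2).trans ?_
          apply mul_le_mul_of_nonneg_left _ (Nat.cast_nonneg _)
          have := Real.add_one_le_exp (1 / (((p : ℝ) - 1) * (p - 2)))
          linarith
    _ = (∏ p ∈ (Icc 1 z).filter Nat.Prime, (p : ℝ)) * Real.exp (∑ p ∈ (Icc 1 z).filter Nat.Prime, 1 / (((p : ℝ) - 1) * (p - 2))) := by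
        rw [prod_mul_distrib, Real.exp_sum]
    _ ≤ (∏ p ∈ (Icc 1 z).filter Nat.Prime, (p : ℝ)) * 3 := by
        apply mul_le_mul_of_nonneg_left _ (prod_nonneg fun p _ => Nat.cast_nonneg _)
        refine (Real.exp_le_exp.2 (tele z)).trans ?_
        have := Real.exp_one_lt_d9
        linarith
    _ = _ := by
        push_cast
        ring

lemma Sing_mod {n m z : ℕ} (h : n ≡ m [MOD primorial z]) : Sing a b n z = Sing a b m z := by
  unfold Sing
  apply prod_congr rfl
  intro p hp
  unfold fac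
  rw [roots_mod a b (h.of_dvd ?_)]
  rw [← prod_primes]
  exact dvd_prod_of_mem _ hp

lemma block (W : ℕ) (f : ℕ → ℝ) (hf : ∀ n m : ℕ, n ≡ m [MOD W] → f n = f m) (K : ℕ) :
    ∑ n ∈ range (K * W), f n = K * ∑ n ∈ range W, f n := by
  induction K with
  | zero => simp
  | succ K ih =>
    rw [add_mul, one_mul, sum_range_add, ih]
    have : ∀ x ∈ range W, f (K * W + x) = f x := by
      intro x _
      apply hf
      unfold Nat.ModEq
      rw [Nat.mul_add_mod_self_right]
    rw [sum_congr rfl this]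
    push_cast
    ring

lemma avg_le (z N : ℕ) (hN : primorial z ≤ N) (f : ℕ → ℝ) (hf : ∀ n m : ℕ, n ≡ m [MOD primorial z] → f n = f m)
    (hf0 : ∀ n, 0 ≤ f n) (c : ℝ) (hc : 0 ≤ c) (h : ∑ n ∈ range (primorial z), f n ≤ c * primorial z) :
    ∑ n ∈ Icc 1 N, f n ≤ 2 * c * N := by
  have hW := primorial_pos z
  have h1 : Icc 1 N ⊆ range ((N / primorial z + 1) * primorial z) := by
    intro n hn
    rw [mem_Icc] at hn
    rw [mem_range]
    have := Nat.lt_mul_div_succ N hW
    calc n ≤ N := hn.2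
      _ < primorial z * (N / primorial z + 1) := this
      _ = _ := by ring
  have h2 : (((N / primorial z + 1 : ℕ)) : ℝ) * primorial z ≤ 2 * N := by
    have h3 : (N / primorial z + 1) * primorial z ≤ 2 * N := by
      have := Nat.div_mul_le_self N (primorial z)
      rw [add_mul, one_mul]
      omega
    exact_mod_cast h3
  calc ∑ n ∈ Icc 1 N, f n ≤ ∑ n ∈ range ((N / primorial z + 1) * primorial z), f n :=
        sum_le_sum_of_subset_of_nonneg h1 fun n _ _ => hf0 n
    _ = ((N / primorial z + 1 : ℕ) : ℝ) * ∑ n ∈ range (primorial z), f n := block _ f hf _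
    _ ≤ ((N / primorial z + 1 : ℕ) : ℝ) * (c * primorial z) := mul_le_mul_of_nonneg_left h (Nat.cast_nonneg _)
    _ = c * (((N / primorial z + 1 : ℕ) : ℝ) * primorial z) := by ring
    _ ≤ c * (2 * N) := mul_le_mul_of_nonneg_left h2 hc
    _ = _ := by ring

open Classical in
/-- the singular series is rarely large -/
lemma large (z N : ℕ) (hN : primorial z ≤ N) (K : ℝ) (hK : 0 < K) :
    (((Icc 1 N).filter (fun n => K < Sing a b n z)).card : ℝ) ≤ 2 / K * N := by
  have h1 := avg_le z N hN (fun n => Sing a b n z) (fun n m h => Sing_mod a b h) (fun n => Sing_nonneg a b n z) 1 zero_le_one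
    (by rw [sum_Sing, one_mul])
  have h2 : K * (((Icc 1 N).filter (fun n => K < Sing a b n z)).card : ℝ) ≤ ∑ n ∈ Icc 1 N, Sing a b n z := by
    calc K * (((Icc 1 N).filter (fun n => K < Sing a b n z)).card : ℝ) =
        ∑ n ∈ (Icc 1 N).filter (fun n => K < Sing a b n z), K := by rw [sum_const, nsmul_eq_mul, mul_comm]
      _ ≤ ∑ n ∈ (Icc 1 N).filter (fun n => K < Sing a b n z), Sing a b n z := sum_le_sum fun n hn => (mem_filter.1 hn).2.le
      _ ≤ _ := sum_le_sum_of_subset_of_nonneg (filter_subset _ _) fun n _ _ => Sing_nonneg a b n z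
  have h3 : K * (((Icc 1 N).filter (fun n => K < Sing a b n z)).card : ℝ) ≤ K * (2 / K * N) := by
    have : K * (2 / K * N) = 2 * N := by field_simp
    linarith
  exact le_of_mul_le_mul_left h3 hK

open Classical in
/-- the singular series is rarely small without being zero -/
lemma small (z N : ℕ) (hN : primorial z ≤ N) (η : ℝ) (hη : 0 < η) :
    (((Icc 1 N).filter (fun n => 0 < Sing a b n z ∧ Sing a b n z < η)).card : ℝ) ≤ 6 * η * N := by
  have h1 := avg_le z N hN (fun n => (Sing a b n z)⁻¹) (fun n m h => by rw [Sing_mod a b h])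
    (fun n => inv_nonneg.2 (Sing_nonneg a b n z)) 3 (by norm_num) (sum_Sing_inv a b z)
  have h2 : η⁻¹ * (((Icc 1 N).filter (fun n => 0 < Sing a b n z ∧ Sing a b n z < η)).card : ℝ) ≤
      ∑ n ∈ Icc 1 N, (Sing a b n z)⁻¹ := by
    calc η⁻¹ * (((Icc 1 N).filter (fun n => 0 < Sing a b n z ∧ Sing a b n z < η)).card : ℝ) =
        ∑ n ∈ (Icc 1 N).filter (fun n => 0 < Sing a b n z ∧ Sing a b n z < η), η⁻¹ := by
          rw [sum_const, nsmul_eq_mul, mul_comm]
      _ ≤ ∑ n ∈ (Icc 1 N).filter (fun n => 0 < Sing a b n z ∧ Sing a b n z < η), (Sing a b n z)⁻¹ :=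
          sum_le_sum fun n hn => inv_anti₀ (mem_filter.1 hn).2.1 (mem_filter.1 hn).2.2.le
      _ ≤ _ := sum_le_sum_of_subset_of_nonneg (filter_subset _ _) fun n _ _ => inv_nonneg.2 (Sing_nonneg a b n z)
  have h3 : η * (η⁻¹ * (((Icc 1 N).filter (fun n => 0 < Sing a b n z ∧ Sing a b n z < η)).card : ℝ)) ≤ η * (2 * 3 * N) :=
    mul_le_mul_of_nonneg_left (h2.trans h1) hη.le
  rw [← mul_assoc, mul_inv_cancel₀ hη.ne', one_mul] at h3
  linarith

end Pool.Agent.Helper2K9.FP
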