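import Pool.Agent.Helper2K9.FP.MainB

set_option autoImplicit false

/-! The asymptotic formula for the number of representations, for all windows at once. -/

namespace Pool.Agent.Helper2K9.FP

open Finset Filter Pool.Agent.Helper82K9.PR

/-- the number of the primes among the first `y` values beyond the root -/
def reps (a : ℕ) (b : ℤ) (n y : ℕ) : ℕ := ((Icc 1 y).filter (fun t => (val a b n t).natAbs.Prime)).card

lemma reps_eq (a : ℕ) (b : ℤ) (L : ℝ) (n y : ℕ) : (reps a b n y : ℝ) * L = ∑ t ∈ Icc 1 y, om L (val a b n t) := by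
  unfold reps om
  rw [← sum_filter, sum_const, nsmul_eq_mul]

lemma weights (a : ℕ) (b : ℤ) (n z x y : ℕ) (hy : y ≤ x) (L : ℝ) :
    ‖∑ t ∈ Icc 1 x, (if t ≤ y then (1 : ℂ) else 0) * ((om L (val a b n t) - MM (primorial z) (val a b n t) : ℝ) : ℂ)‖ =
      |∑ t ∈ Icc 1 y, om L (val a b n t) - ∑ t ∈ Icc 1 y, MM (primorial z) (val a b n t)| := by
  rw [← sum_sub_distrib, ← Real.norm_eq_abs, ← Complex.norm_real]
  congr 1
  have h1 : Icc 1 y = (Icc 1 x).filter (fun t => t ≤ y) := by
    ext t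
    rw [mem_filter, mem_Icc, mem_Icc]
    omega
  rw [h1, Complex.ofReal_sum, sum_filter]
  apply sum_congr rfl
  intro t _
  split_ifs
  · rw [one_mul]
  · rw [zero_mul]

open Classical in
theorem partA (a : ℕ) (b : ℤ) (ha : 0 < a) (B : ℕ) (ε : ℝ) (hε : 0 < ε) : ∃ z0 : ℕ, ∀ z : ℕ, z0 ≤ z → ∃ A : ℕ, ∀ N : ℕ, A ≤ N →
    ∀ x : ℕ, A * Real.log N ≤ x → (x : ℝ) ≤ Real.log N ^ B →
    (((Icc 1 N).filter (fun n => ¬ ∀ y ≤ x, |reps a b n y * (Real.log N / 2) - Sing a b n z * y| ≤ ε * x)).card : ℝ) ≤ ε * N := by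
  set K0 : ℝ := 16 / ε with hK0
  have hK : 0 < K0 := by rw [hK0]; positivity
  obtain ⟨J, hJ1, hJ⟩ : ∃ J : ℕ, 1 ≤ J ∧ 64 / ε ^ 2 ≤ (J : ℝ) :=
    ⟨⌈64 / ε ^ 2⌉₊ + 1, by omega, by push_cast; linarith [Nat.le_ceil (64 / ε ^ 2)]⟩
  have hJr : (0 : ℝ) < J := by exact_mod_cast hJ1
  set e : ℝ := ε / (8 * (J + 2)) with he
  have he0 : 0 < e := by rw [he]; positivity
  obtain ⟨z0, hz0, h⟩ := partB a b ha B e he0
  refine ⟨z0, fun z hz => ?_⟩
  obtain ⟨A1, hA1, hA⟩ := h z hz
  obtain ⟨N1, hN1, hev⟩ := ev B (min (ε / 8) 1) (lt_min (by positivity) one_pos)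
  have hC := Cz_ge z
  set CW : ℝ := Cz z * primorial z with hCW
  have hCW0 : 0 ≤ CW := by rw [hCW]; positivity
  obtain ⟨A2, hA2⟩ : ∃ A2 : ℕ, 4 * (K0 + CW) / ε ≤ (A2 : ℝ) := ⟨⌈4 * (K0 + CW) / ε⌉₊, Nat.le_ceil _⟩
  refine ⟨A1 + N1 + primorial z + A2, fun N hN x hx1 hx2 => ?_⟩
  obtain ⟨g1, g2⟩ := hev N (by omega)
  have hNr : (0 : ℝ) < N := by exact_mod_cast (by omega : 0 < N)
  have gm0 : 0 < min (ε / 8) (1 : ℝ) := lt_min (by positivity) one_pos
  have g3 : 1 ≤ Real.log N := by
    refine le_trans ?_ g2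
    rw [le_inv_comm₀ one_pos gm0, inv_one]
    exact min_le_right _ _
  have hAx : ((A1 + N1 + primorial z + A2 : ℕ) : ℝ) ≤ x := by
    refine le_trans ?_ hx1
    exact le_mul_of_one_le_right (Nat.cast_nonneg _) g3
  push_cast at hAx
  have hA1x : (A1 : ℝ) * Real.log N ≤ x := by
    refine le_trans ?_ hx1
    apply mul_le_mul_of_nonneg_right _ (by linarith)
    push_cast
    have h1 : (0 : ℝ) ≤ N1 := Nat.cast_nonneg _
    have h2 : (0 : ℝ) ≤ primorial z := Nat.cast_nonneg _
    have h3 : (0 : ℝ) ≤ A2 := Nat.cast_nonneg _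
    linarith
  have hx0 : (1 : ℝ) ≤ x := by
    have h1 : (3 : ℝ) ≤ A1 := by exact_mod_cast hA1
    have h2 : (0 : ℝ) ≤ primorial z := Nat.cast_nonneg _
    have h3 : (0 : ℝ) ≤ A2 := Nat.cast_nonneg _
    have h4 : (0 : ℝ) ≤ N1 := Nat.cast_nonneg _
    linarith
  have hKx : K0 + CW ≤ ε / 4 * x := by
    have h1 : 4 * (K0 + CW) / ε ≤ x := by
      have h1 : (0 : ℝ) ≤ A1 := Nat.cast_nonneg _
      have h2 : (0 : ℝ) ≤ primorial z := Nat.cast_nonneg _
      have h4 : (0 : ℝ) ≤ N1 := Nat.cast_nonneg _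
      linarith
    rw [div_le_iff₀ hε] at h1
    linarith
  set q : ℕ := x / J + 1 with hq
  have hq0 : 0 < q := by rw [hq]; exact Nat.succ_pos _
  have hqr : (q : ℝ) ≤ x / J + 1 := by
    rw [hq]
    push_cast
    linarith [@Nat.cast_div_le ℝ _ _ _ x J]
  have hxq : x < J * q := Nat.lt_mul_div_succ x (by omega)
  have hw := fun j : ℕ => hA N (by omega) x hA1x hx2 (fun t => if t ≤ min (j * q) x then (1 : ℂ) else 0)
    (fun t => by split_ifs <;> simp)
  set E : ℕ → Finset ℕ := fun j => (Icc 1 N).filter (fun n => e * x < ‖∑ t ∈ Icc 1 x,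
    (if t ≤ min (j * q) x then (1 : ℂ) else 0) *
      ((om (Real.log N / 2) (val a b n t) - MM (primorial z) (val a b n t) : ℝ) : ℂ)‖) with hE
  have hEc : ∀ j, ((E j).card : ℝ) ≤ e * N := hw
  have hsub : (Icc 1 N).filter (fun n => ¬ ∀ y ≤ x, |reps a b n y * (Real.log N / 2) - Sing a b n z * y| ≤ ε * x) ⊆
      (Icc 1 N).filter (fun n => K0 < Sing a b n z) ∪ (range (J + 2)).biUnion E := by
    intro n hn
    rw [mem_filter] at hn
    by_contra hcon
    rw [mem_union, mem_filter, mem_biUnion] at hcon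
    push Not at hcon
    obtain ⟨c2, c3⟩ := hcon
    apply hn.2
    have c2' := c2 hn.1
    have c3' : ∀ j ≤ J, |∑ t ∈ Icc 1 (min (j * q) x), om (Real.log N / 2) (val a b n t) -
        ∑ t ∈ Icc 1 (min (j * q) x), MM (primorial z) (val a b n t)| ≤ e * x := by
      intro j hj
      have h1 := c3 j (mem_range.2 (by omega))
      rw [hE] at h1
      simp only [mem_filter, not_and, not_lt] at h1
      have h2 := h1 hn.1
      rwa [weights a b n z x _ (min_le_right _ _)] at h2
    intro y hy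
    set L : ℝ := Real.log N / 2 with hL
    have hL0 : 0 ≤ L := by rw [hL]; linarith
    have mono : ∀ u v : ℕ, u ≤ v → ∑ t ∈ Icc 1 u, om L (val a b n t) ≤ ∑ t ∈ Icc 1 v, om L (val a b n t) := by
      intro u v huv
      apply sum_le_sum_of_subset_of_nonneg
      · exact Icc_subset_Icc_right huv
      · intro t _ _
        exact om_nonneg hL0 _
    have hj : y / q < J := by
      rw [Nat.div_lt_iff_lt_mul hq0]
      omega
    have hy1 : y / q * q ≤ y := Nat.div_mul_le_self y q
    have hy2 : y < (y / q + 1) * q := by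
      have := Nat.lt_mul_div_succ y hq0
      rwa [mul_comm]
    have d1 := c3' (y / q) hj.le
    have d2 := c3' (y / q + 1) hj
    have e1 : min (y / q * q) x = y / q * q := min_eq_left (hy1.trans hy)
    rw [e1] at d1
    set y1 : ℕ := y / q * q with hy1'
    set y2 : ℕ := min ((y / q + 1) * q) x with hy2'
    have f1 := formula a b n z y1
    have f2 := formula a b n z y2
    have hyy2 : y ≤ y2 := le_min hy2.le hy
    have hy2q : y2 ≤ y + q := by
      have : (y / q + 1) * q = y1 + q := by rw [hy1']; ring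
      rw [hy2', this]
      exact (min_le_left _ _).trans (by omega)
    have hy1q : y ≤ y1 + q := by
      have : (y / q + 1) * q = y1 + q := by rw [hy1']; ring
      omega
    rw [reps_eq a b L n y]
    have m1 := mono y1 y hy1
    have m2 := mono y y2 hyy2
    have hS := Sing_nonneg a b n z
    have r1 : (y : ℝ) ≤ y1 + q := by exact_mod_cast hy1q
    have r2 : (y2 : ℝ) ≤ y + q := by exact_mod_cast hy2q
    have s1 : Sing a b n z * y ≤ Sing a b n z * y1 + Sing a b n z * q := by
      rw [← mul_add]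
      exact mul_le_mul_of_nonneg_left r1 hS
    have s2 : Sing a b n z * y2 ≤ Sing a b n z * y + Sing a b n z * q := by
      rw [← mul_add]
      exact mul_le_mul_of_nonneg_left r2 hS
    have s3 : Sing a b n z * q ≤ ε / 4 * x + K0 := by
      calc Sing a b n z * q ≤ K0 * (x / J + 1) := mul_le_mul c2' hqr (Nat.cast_nonneg _) hK.le
        _ = K0 / J * x + K0 := by ring
        _ ≤ ε / 4 * x + K0 := by
            apply add_le_add _ le_rfl
            apply mul_le_mul_of_nonneg_right _ (by linarith)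
            rw [div_le_iff₀ hJr, hK0]
            have h1 : 64 / ε ^ 2 * (ε / 4) ≤ J * (ε / 4) := mul_le_mul_of_nonneg_right hJ (by positivity)
            have h2 : 64 / ε ^ 2 * (ε / 4) = 16 / ε := by field_simp; norm_num
            linarith
    have s4 : e * x ≤ ε / 16 * x := by
      apply mul_le_mul_of_nonneg_right _ (by linarith)
      rw [he]
      apply div_le_div_of_nonneg_left hε.le (by norm_num)
      have : (0 : ℝ) ≤ J := hJr.le
      linarith
    have hεx : 0 < ε * x := by apply mul_pos hε; linarith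
    have a1 := (abs_le.1 d1).1
    have a2 := (abs_le.1 d2).2
    have a3 := (abs_le.1 f1).1
    have a4 := (abs_le.1 f2).2
    rw [← hCW] at a3 a4
    rw [abs_le]
    constructor
    · linarith
    · linarith
  have hc2 : (((Icc 1 N).filter (fun n => K0 < Sing a b n z)).card : ℝ) ≤ ε / 8 * N := by
    have := large a b z N (by omega) K0 hK
    have e1 : 2 / K0 = ε / 8 := by rw [hK0]; field_simp; norm_num
    rwa [e1] at this
  have hc3 : ((((range (J + 2)).biUnion E).card : ℕ) : ℝ) ≤ ε / 8 * N := by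
    calc ((((range (J + 2)).biUnion E).card : ℕ) : ℝ) ≤ ((∑ j ∈ range (J + 2), (E j).card : ℕ) : ℝ) :=
          Nat.cast_le.2 card_biUnion_le
      _ = ∑ j ∈ range (J + 2), ((E j).card : ℝ) := by push_cast; rfl
      _ ≤ ∑ j ∈ range (J + 2), e * N := sum_le_sum fun j _ => hEc j
      _ = ε / 8 * N := by
          rw [sum_const, card_range, nsmul_eq_mul, he]
          push_cast
          field_simp
  calc (((Icc 1 N).filter (fun n => ¬ ∀ y ≤ x, |reps a b n y * (Real.log N / 2) - Sing a b n z * y| ≤ ε * x)).card : ℝ) ≤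
      (((((Icc 1 N).filter (fun n => K0 < Sing a b n z)).card + ((range (J + 2)).biUnion E).card : ℕ)) : ℝ) :=
        Nat.cast_le.2 ((card_le_card hsub).trans (card_union_le _ _))
    _ ≤ ε * N := by
        rw [Nat.cast_add]
        have : 0 < ε * N := mul_pos hε hNr
        linarith

end Pool.Agent.Helper2K9.FP
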