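import Pool.Agent.Helper2K9.FP.Root

set_option autoImplicit false

/-! Weighted sums over the positions. -/

namespace Pool.Agent.Helper2K9.FP

open Finset Filter Pool.Agent.Helper82K9.PR

lemma om_sub (L L' : ℝ) (h : L ≤ L') (u : ℤ) : |om L' u - om L u| = (L' - L) * om 1 u := by
  unfold om
  split_ifs
  · rw [mul_one, abs_of_nonneg (by linarith)]
  · simp

lemma om_scale (L : ℝ) (u : ℤ) : om L u = L * om 1 u := by
  unfold om
  split_ifs <;> simp

lemma G1_le (a : ℕ) (b : ℤ) (N x t : ℕ) (hx : x ≤ Nat.sqrt N) (ht : t ∈ Icc 1 x) (i : Fin 1) :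
    |((G1 a t i : ℤ) : ℝ)| ≤ 1 * (HH a b N : ℕ) * ((t + h1 i : ℕ) : ℝ) ^ 1 := by
  rw [mem_Icc] at ht
  have e2 : (t + h1 i : ℕ) = t := rfl
  rw [e2]
  unfold G1
  push_cast
  rw [abs_of_nonneg (by positivity), pow_one, one_mul]
  have h2 : (1 : ℝ) ≤ t := by exact_mod_cast ht.1
  have h3 : (t : ℝ) ≤ Nat.sqrt N := by exact_mod_cast (by omega : t ≤ Nat.sqrt N)
  have h4 : (a : ℝ) * Nat.sqrt N ≤ ((HH a b N : ℕ) : ℝ) := by
    unfold HH K
    have h5 : a * Nat.sqrt N ≤ (4 * a + b.natAbs) * (Nat.sqrt N + 1) := by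
      have : a * Nat.sqrt N ≤ (4 * a + b.natAbs) * Nat.sqrt N := Nat.mul_le_mul_right _ (by omega)
      exact this.trans (Nat.mul_le_mul_left _ (Nat.le_succ _))
    exact_mod_cast h5
  have ha : (0 : ℝ) ≤ a := Nat.cast_nonneg _
  calc (a : ℝ) * ((t : ℝ) - 1) ^ 2 ≤ a * (t * t) := by
        apply mul_le_mul_of_nonneg_left _ ha
        nlinarith
    _ = (a * t) * t := by ring
    _ ≤ (a * Nat.sqrt N) * t := by
        apply mul_le_mul_of_nonneg_right _ (by linarith)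
        exact mul_le_mul_of_nonneg_left h3 ha
    _ ≤ _ := mul_le_mul_of_nonneg_right h4 (by linarith)

open Classical in
theorem partB (a : ℕ) (b : ℤ) (ha : 0 < a) (B : ℕ) (ε : ℝ) (hε : 0 < ε) : ∃ z0 : ℕ, 1 ≤ z0 ∧ ∀ z : ℕ, z0 ≤ z →
    ∃ A : ℕ, 3 ≤ A ∧ ∀ N : ℕ, A ≤ N →
    ∀ x : ℕ, A * Real.log N ≤ x → (x : ℝ) ≤ Real.log N ^ B → ∀ w : ℕ → ℂ, (∀ n, ‖w n‖ ≤ 1) →
    (((Icc 1 N).filter (fun n => ε * x < ‖∑ t ∈ Icc 1 x, w t *
      ((om (Real.log N / 2) (val a b n t) - MM (primorial z) (val a b n t) : ℝ) : ℂ)‖)).card : ℝ) ≤ ε * N := by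
  have hK := K_ge a b ha
  have hκ := κ_nonneg a b ha
  set e : ℝ := min (ε / (100 * (K a b : ℝ) ^ 2)) (ε / 4) with he
  have he0 : 0 < e := lt_min (by positivity) (by positivity)
  have he1 : e ≤ ε / (100 * (K a b : ℝ) ^ 2) := min_le_left _ _
  have he2 : e ≤ ε / 4 := min_le_right _ _
  obtain ⟨z0, hz0, h⟩ := almostW 1 le_rfl h1 h1_inj 1 (by norm_num) (2 * B) 1 e he0
  refine ⟨z0, hz0, fun z hz => ?_⟩
  obtain ⟨A0, hA0, hA⟩ := h z hz
  have hC := Cz_ge z
  have hCe : 0 < Cz z + e := by linarith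
  set κ1 : ℝ := κ a b + 1 with hκ1
  have hκ1' : 0 < κ1 := by linarith
  set μ : ℝ := min (1 / 8) (min (ε / (8 * κ1 * (Cz z + e))) (1 / (2 * κ1))) with hμ
  have gm0 : 0 < μ := lt_min (by norm_num) (lt_min (by positivity) (by positivity))
  have gm : μ ≤ 1 / 8 := min_le_left _ _
  have gm1 : μ ≤ ε / (8 * κ1 * (Cz z + e)) := (min_le_right _ _).trans (min_le_left _ _)
  have gm2 : μ ≤ 1 / (2 * κ1) := (min_le_right _ _).trans (min_le_right _ _)
  obtain ⟨N1, hN1, hev⟩ := ev B μ gm0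
  refine ⟨A0 ^ 2 + N1 + 3, by omega, fun N hN x hx1 hx2 w hw => ?_⟩
  obtain ⟨g1, g2⟩ := hev N (by omega)
  have hN1' : 1 ≤ N := by omega
  have hNr : (0 : ℝ) < N := by exact_mod_cast hN1'
  have g3 : (8 : ℝ) ≤ Real.log N := by
    refine le_trans ?_ g2
    rw [le_inv_comm₀ (by norm_num) gm0]
    refine gm.trans (by norm_num)
  have g4 : 8 * κ1 * (Cz z + e) ≤ ε * Real.log N := by
    have h2 : (ε / (8 * κ1 * (Cz z + e)))⁻¹ ≤ Real.log N := by
      refine le_trans ?_ g2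
      exact inv_anti₀ gm0 gm1
    rw [inv_div, div_le_iff₀ hε] at h2
    linarith
  have g5 : 2 * κ1 ≤ Real.log N := by
    have h2 := inv_anti₀ gm0 gm2
    rw [one_div, inv_inv] at h2
    exact h2.trans g2
  obtain ⟨l1, l2⟩ := log_H a b ha N hN1'
  have hcard := card_le a b ha N hN1'
  have hHs : Nat.sqrt N ≤ HH a b N := by
    unfold HH K
    have : 1 * (Nat.sqrt N + 1) ≤ (4 * a + b.natAbs) * (Nat.sqrt N + 1) := Nat.mul_le_mul_right _ (by omega)
    omega
  have htr := transfer a b ha N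
  have hGl := G1_le a b N x
  set H : ℕ := HH a b N with hH
  set L : ℝ := Real.log (H : ℝ) with hL
  have hL4 : 4 ≤ L := by linarith
  have hAH : A0 ≤ H := by
    have : A0 ≤ Nat.sqrt N := by
      rw [Nat.le_sqrt']
      omega
    omega
  have hxL : A0 * L ^ 1 ≤ x := by
    rw [pow_one]
    refine le_trans ?_ hx1
    have h2 : (A0 : ℝ) ≤ ((A0 ^ 2 + N1 + 3 : ℕ) : ℝ) := by
      exact_mod_cast (by nlinarith : A0 ≤ A0 ^ 2 + N1 + 3)
    apply mul_le_mul h2 (by linarith) (by linarith) (Nat.cast_nonneg _)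
  have hxL2 : (x : ℝ) ≤ L ^ (2 * B) := by
    refine hx2.trans ?_
    rw [pow_mul]
    apply pow_le_pow_left₀ (by linarith)
    nlinarith
  have hx8 : ((x : ℝ) + 1) ^ 2 ≤ N := by
    have h2 : ((x : ℝ) + 1) ^ 2 ≤ (Real.log N ^ B + 1) ^ 2 := by
      apply pow_le_pow_left₀ (by positivity)
      linarith
    have h3 : μ * N ≤ 1 * N :=
      mul_le_mul_of_nonneg_right (gm.trans (by norm_num)) hNr.le
    linarith
  have hxs : x ≤ Nat.sqrt N := by
    rw [Nat.le_sqrt']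
    have : ((x + 1) ^ 2 : ℕ) ≤ N := by exact_mod_cast hx8
    exact (Nat.pow_le_pow_left (Nat.le_succ x) 2).trans this
  have hx0 : (0 : ℝ) < x := by
    refine lt_of_lt_of_le ?_ hx1
    apply mul_pos _ (by linarith)
    exact_mod_cast (by omega : 0 < A0 ^ 2 + N1 + 3)
  have hG : ∀ n ∈ Icc 1 x, ∀ i, |((G1 a n i : ℤ) : ℝ)| ≤ 1 * H * ((n + h1 i : ℕ) : ℝ) ^ 1 :=
    fun t ht i => hGl t hxs ht i
  have b1 := hA H hAH x hxL hxL2 (G1 a) hG w hw
  have b2 := hA H hAH x hxL hxL2 (G1 a) hG (fun _ => 1) (fun _ => by simp)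
  have c1 := (htr (fun v => e * x < ‖∑ n ∈ Icc 1 x, w n * ((FF L h1 (G1 a) v n - RR z h1 (G1 a) v n : ℝ) : ℂ)‖)).trans b1
  have c2 := (htr (fun v => e * x < ‖∑ n ∈ Icc 1 x, (1 : ℂ) * ((FF L h1 (G1 a) v n - RR z h1 (G1 a) v n : ℝ) : ℂ)‖)).trans b2
  simp only [FF_vv, RR_vv] at c1 c2
  have hsub : (Icc 1 N).filter (fun n => ε * x < ‖∑ t ∈ Icc 1 x, w t *
      ((om (Real.log N / 2) (val a b n t) - MM (primorial z) (val a b n t) : ℝ) : ℂ)‖) ⊆
      (Icc 1 N).filter (fun n => e * x < ‖∑ t ∈ Icc 1 x, w t * ((om L (val a b n t) - MM (primorial z) (val a b n t) : ℝ) : ℂ)‖) ∪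
      (Icc 1 N).filter (fun n => e * x < ‖∑ t ∈ Icc 1 x, (1 : ℂ) * ((om L (val a b n t) - MM (primorial z) (val a b n t) : ℝ) : ℂ)‖) := by
    intro n hn
    rw [mem_filter] at hn
    rw [mem_union, mem_filter, mem_filter]
    by_contra hcon
    push Not at hcon
    have d1 := hcon.1 hn.1
    have d2 := hcon.2 hn.1
    have d3 : ∑ t ∈ Icc 1 x, om L (val a b n t) ≤ (Cz z + e) * x := by
      have s1 : ‖∑ t ∈ Icc 1 x, (1 : ℂ) * ((om L (val a b n t) - MM (primorial z) (val a b n t) : ℝ) : ℂ)‖ =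
          |∑ t ∈ Icc 1 x, om L (val a b n t) - ∑ t ∈ Icc 1 x, MM (primorial z) (val a b n t)| := by
        rw [← sum_sub_distrib, ← Real.norm_eq_abs, ← Complex.norm_real]
        congr 1
        push_cast
        apply sum_congr rfl
        intro t _
        rw [one_mul]
      rw [s1] at d2
      have s2 := (abs_le.1 d2).2
      have s3 : ∑ t ∈ Icc 1 x, MM (primorial z) (val a b n t) ≤ Cz z * x := by
        calc ∑ t ∈ Icc 1 x, MM (primorial z) (val a b n t) ≤ ∑ t ∈ Icc 1 x, Cz z := sum_le_sum fun t _ => MM_le_Cz z _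
          _ = _ := by rw [sum_const, Nat.card_Icc, Nat.add_sub_cancel, nsmul_eq_mul, mul_comm]
      linarith
    have d4 : ∑ t ∈ Icc 1 x, om 1 (val a b n t) ≤ (Cz z + e) * x / L := by
      rw [le_div_iff₀ (by linarith)]
      refine le_trans (le_of_eq ?_) d3
      rw [mul_comm, mul_sum]
      exact sum_congr rfl fun t _ => (om_scale L _).symm
    have d5 : ‖∑ t ∈ Icc 1 x, w t * ((om (Real.log N / 2) (val a b n t) - MM (primorial z) (val a b n t) : ℝ) : ℂ)‖ ≤
        ‖∑ t ∈ Icc 1 x, w t * ((om L (val a b n t) - MM (primorial z) (val a b n t) : ℝ) : ℂ)‖ +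
          κ1 * ∑ t ∈ Icc 1 x, om 1 (val a b n t) := by
      have s1 : ∑ t ∈ Icc 1 x, w t * ((om (Real.log N / 2) (val a b n t) - MM (primorial z) (val a b n t) : ℝ) : ℂ) =
          ∑ t ∈ Icc 1 x, w t * ((om L (val a b n t) - MM (primorial z) (val a b n t) : ℝ) : ℂ) -
          ∑ t ∈ Icc 1 x, w t * ((om L (val a b n t) - om (Real.log N / 2) (val a b n t) : ℝ) : ℂ) := by
        rw [← sum_sub_distrib]
        apply sum_congr rfl
        intro t _
        push_cast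
        ring
      rw [s1]
      refine (norm_sub_le _ _).trans ?_
      apply add_le_add le_rfl
      rw [mul_sum]
      refine (norm_sum_le _ _).trans (sum_le_sum fun t _ => ?_)
      rw [norm_mul, Complex.norm_real, Real.norm_eq_abs, om_sub _ _ l1]
      have s2 : 0 ≤ om 1 (val a b n t) := om_nonneg zero_le_one _
      calc ‖w t‖ * ((L - Real.log N / 2) * om 1 (val a b n t)) ≤ 1 * (κ1 * om 1 (val a b n t)) := by
            apply mul_le_mul (hw t) _ (by apply mul_nonneg _ s2; linarith) zero_le_one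
            apply mul_le_mul_of_nonneg_right _ s2
            linarith
        _ = _ := one_mul _
    have d6 : κ1 * ((Cz z + e) * x / L) ≤ ε / 4 * x := by
      rw [mul_div_assoc', div_le_iff₀ (by linarith)]
      have s1 : 4 * κ1 * (Cz z + e) ≤ ε * L := by
        have : ε * (Real.log N / 2) ≤ ε * L := mul_le_mul_of_nonneg_left l1 hε.le
        linarith
      have s2 : 4 * κ1 * (Cz z + e) * x ≤ ε * L * x := mul_le_mul_of_nonneg_right s1 hx0.le
      linarith
    have d7 : κ1 * ∑ t ∈ Icc 1 x, om 1 (val a b n t) ≤ κ1 * ((Cz z + e) * x / L) := mul_le_mul_of_nonneg_left d4 hκ1'.le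
    have d8 : e * x ≤ ε / 4 * x := mul_le_mul_of_nonneg_right he2 hx0.le
    have d9 : ε / 4 * x + ε / 4 * x ≤ ε * x := by linarith [mul_pos hε hx0]
    linarith [hn.2]
  calc (((Icc 1 N).filter (fun n => ε * x < ‖∑ t ∈ Icc 1 x, w t *
      ((om (Real.log N / 2) (val a b n t) - MM (primorial z) (val a b n t) : ℝ) : ℂ)‖)).card : ℝ) ≤ _ :=
        Nat.cast_le.2 ((card_le_card hsub).trans (card_union_le _ _))
    _ ≤ e * (25 * (K a b : ℝ) ^ 2 * N) + e * (25 * (K a b : ℝ) ^ 2 * N) := by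
        rw [Nat.cast_add]
        apply add_le_add
        · exact c1.trans (mul_le_mul_of_nonneg_left hcard he0.le)
        · exact c2.trans (mul_le_mul_of_nonneg_left hcard he0.le)
    _ = e * (50 * (K a b : ℝ) ^ 2) * N := by ring
    _ ≤ (ε / (100 * (K a b : ℝ) ^ 2)) * (50 * (K a b : ℝ) ^ 2) * N := by
        apply mul_le_mul_of_nonneg_right _ hNr.le
        exact mul_le_mul_of_nonneg_right he1 (by positivity)
    _ = ε / 2 * N := by
        field_simp
        norm_num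
    _ ≤ ε * N := by linarith [mul_pos hε hNr]

end Pool.Agent.Helper2K9.FP
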