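import Pool.Agent.Helper2K9.FP.MainA

set_option autoImplicit false

/-! The order of magnitude of the least prime value. -/

namespace Pool.Agent.Helper2K9.FP

open Finset Filter Pool.Agent.Helper82K9.PR

/-- the first moment -/
lemma first (a : ℕ) (b : ℤ) (ha : 0 < a) (t0 : ℕ) : ∃ N₀ : ℕ, ∀ N : ℕ, N₀ ≤ N → ∀ y : ℕ, (y : ℝ) ≤ Real.log N ^ t0 →
    ∀ t ∈ Icc 1 y,
    (((Icc 1 N).filter (fun n => (val a b n t).natAbs.Prime)).card : ℝ) ≤ 150 * (K a b : ℝ) ^ 2 * N / Real.log N := by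
  classical
  have hκ := κ_nonneg a b ha
  obtain ⟨H0, hH0, h⟩ := single2 1 h1 h1_inj 1 (by norm_num) (2 * t0) 1 1 one_pos 1 (fun i => Nat.zero_le _)
  obtain ⟨N1, hN1, hev⟩ := ev t0 (1 / 8) (by norm_num)
  refine ⟨H0 ^ 2 + N1, fun N hN y hy t ht => ?_⟩
  obtain ⟨g1, g2⟩ := hev N (by omega)
  have g3 : (8 : ℝ) ≤ Real.log N := by
    refine le_trans ?_ g2
    norm_num
  have hN1' : 1 ≤ N := by omega
  have hNr : (0 : ℝ) < N := by exact_mod_cast hN1'
  obtain ⟨l1, l2⟩ := log_H a b ha N hN1'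
  have hcard := card_le a b ha N hN1'
  have hHs : Nat.sqrt N ≤ HH a b N := by
    unfold HH K
    have : 1 * (Nat.sqrt N + 1) ≤ (4 * a + b.natAbs) * (Nat.sqrt N + 1) := Nat.mul_le_mul_right _ (by omega)
    omega
  have htr := transfer a b ha N
  have hGl := G1_le a b N y t
  set H : ℕ := HH a b N with hH
  set L : ℝ := Real.log (H : ℝ) with hL
  have hL4 : 4 ≤ L := by linarith
  have hAH : H0 ≤ H := by
    have : H0 ≤ Nat.sqrt N := by
      rw [Nat.le_sqrt']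
      omega
    omega
  have hyL : (y : ℝ) ≤ L ^ (2 * t0) := by
    refine hy.trans ?_
    rw [pow_mul]
    apply pow_le_pow_left₀ (by linarith)
    nlinarith
  have hys : y ≤ Nat.sqrt N := by
    rw [Nat.le_sqrt']
    have h2 : ((y : ℝ) + 1) ^ 2 ≤ (Real.log N ^ t0 + 1) ^ 2 := by
      apply pow_le_pow_left₀ (by positivity)
      linarith
    have : ((y + 1) ^ 2 : ℕ) ≤ N := by
      have h3 : ((y : ℝ) + 1) ^ 2 ≤ N := by linarith
      exact_mod_cast h3
    exact (Nat.pow_le_pow_left (Nat.le_succ y) 2).trans this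
  have ht' := mem_Icc.1 ht
  have hG : ∀ i, |((G1 a t i : ℤ) : ℝ)| ≤ 1 * H * ((t + h1 i : ℕ) : ℝ) ^ 1 := fun i => hGl hys ht i
  have b1 := h H hAH y (by omega) hyL (G1 a) t ht'.1 (fun i => ht'.2) hG
  have b2 : ∑ v ∈ Bx 1 H, RR 1 h1 (G1 a) v t ≤ (Bx 1 H).card := by
    calc ∑ v ∈ Bx 1 H, RR 1 h1 (G1 a) v t ≤ ∑ v ∈ Bx 1 H, Cz 1 ^ 1 := sum_le_sum fun v _ => RR_le 1 h1 (G1 a) v t
      _ = _ := by
          have : Cz 1 = 1 := by
            unfold Cz
            have : primorial 1 = 1 := by decide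
            rw [this]
            simp
          rw [sum_const, this, nsmul_eq_mul]
          simp
  have hC1 : Cz 1 = 1 := by
    unfold Cz
    have : primorial 1 = 1 := by decide
    rw [this]
    simp
  rw [hC1] at b1
  have b3 : ∑ v ∈ Bx 1 H, FF L h1 (G1 a) v t ≤ 3 * (Bx 1 H).card := by
    have := (abs_le.1 b1).2
    norm_num at this
    linarith
  have b4 : L * (((Bx 1 H).filter (fun v => (pv v t + G1 a t 0).natAbs.Prime)).card : ℝ) ≤ ∑ v ∈ Bx 1 H, FF L h1 (G1 a) v t := by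
    have e1 : ∀ v : Fin (1 + 1) → ℤ, FF L h1 (G1 a) v t = if (pv v t + G1 a t 0).natAbs.Prime then L else 0 := by
      intro v
      unfold FF om
      rw [Fin.prod_univ_one]
      rfl
    rw [sum_congr rfl (fun v _ => e1 v), ← sum_filter, sum_const, nsmul_eq_mul, mul_comm]
  have b5 := htr (fun v => (pv v t + G1 a t 0).natAbs.Prime)
  simp only [pv_vv] at b5
  have hlog : 0 < Real.log N := by linarith
  have e1 : (((Icc 1 N).filter (fun n => (val a b n t).natAbs.Prime)).card : ℝ) ≤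
      (((Bx 1 H).filter (fun v => (pv v t + G1 a t 0).natAbs.Prime)).card : ℝ) := by
    convert b5
  rw [le_div_iff₀ hlog]
  have e2 : (((Bx 1 H).filter (fun v => (pv v t + G1 a t 0).natAbs.Prime)).card : ℝ) * Real.log N ≤
      2 * (L * (((Bx 1 H).filter (fun v => (pv v t + G1 a t 0).natAbs.Prime)).card : ℝ)) := by
    have h0 : (0 : ℝ) ≤ (((Bx 1 H).filter (fun v => (pv v t + G1 a t 0).natAbs.Prime)).card : ℝ) := Nat.cast_nonneg _
    nlinarith
  have e3 : (((Icc 1 N).filter (fun n => (val a b n t).natAbs.Prime)).card : ℝ) * Real.log N ≤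
      (((Bx 1 H).filter (fun v => (pv v t + G1 a t 0).natAbs.Prime)).card : ℝ) * Real.log N :=
    mul_le_mul_of_nonneg_right e1 hlog.le
  linarith

/-- a value at `M + s` -/
lemma val_eq (a : ℕ) (b : ℤ) (n s : ℕ) : val a b n s = (g a b ((M a b n : ℤ) + 1) - n) +
    ((s : ℤ) - 1) * (2 * a * ((M a b n : ℤ) + 1) + b) + a * ((s : ℤ) - 1) ^ 2 := by
  unfold val g
  ring

lemma slope_ge (a : ℕ) (b : ℤ) (ha : 0 < a) (n : ℕ) : 2 * √(n : ℝ) ≤ ((2 * a * ((M a b n : ℤ) + 1) + b : ℤ) : ℝ) := by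
  obtain ⟨h1, h2, h3⟩ := facts a b ha n
  have ha' : (1 : ℤ) ≤ a := by exact_mod_cast ha
  have h0 : 0 ≤ 2 * a * ((M a b n : ℤ) + 1) + b := by nlinarith
  have e : (2 * a * ((M a b n : ℤ) + 1) + b) ^ 2 = 4 * a * g a b ((M a b n : ℤ) + 1) + b ^ 2 := by
    unfold g
    ring
  have h4 : 4 * (n : ℤ) ≤ (2 * a * ((M a b n : ℤ) + 1) + b) ^ 2 := by
    rw [e]
    have hn : (0 : ℤ) ≤ n := by positivity
    nlinarith [sq_nonneg b]
  have h5 : 4 * (n : ℝ) ≤ ((2 * a * ((M a b n : ℤ) + 1) + b : ℤ) : ℝ) ^ 2 := by exact_mod_cast h4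
  have h6 : (0 : ℝ) ≤ ((2 * a * ((M a b n : ℤ) + 1) + b : ℤ) : ℝ) := by exact_mod_cast h0
  have h7 : (2 * √(n : ℝ)) ^ 2 ≤ ((2 * a * ((M a b n : ℤ) + 1) + b : ℤ) : ℝ) ^ 2 := by
    rw [mul_pow, Real.sq_sqrt (Nat.cast_nonneg _)]
    linarith
  exact le_of_sq_le_sq h7 h6

lemma slope_up (a : ℕ) (b : ℤ) (ha : 0 < a) (n : ℕ) (hn : 1 ≤ n) :
    ((2 * a * ((M a b n : ℤ) + 1) + b : ℤ) : ℝ) ≤ 2 * K a b * √(n : ℝ) := by
  have h1 := slope_le a b ha n n le_rfl
  have hs : (0 : ℤ) ≤ Nat.sqrt n := by positivity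
  have hb : 0 ≤ |b| := abs_nonneg b
  have h2 : 2 * a * ((M a b n : ℤ) + 1) + b ≤ (K a b : ℤ) * ((Nat.sqrt n : ℤ) + 1) := by
    unfold K
    push_cast
    have : 0 ≤ |b| * (Nat.sqrt n : ℤ) := by positivity
    nlinarith
  have h3 : ((2 * a * ((M a b n : ℤ) + 1) + b : ℤ) : ℝ) ≤ (K a b : ℝ) * ((Nat.sqrt n : ℝ) + 1) := by exact_mod_cast h2
  refine h3.trans ?_
  have h4 : (Nat.sqrt n : ℝ) ≤ √n := Real.nat_sqrt_le_real_sqrt
  have h5 : (1 : ℝ) ≤ √n := by
    rw [Real.one_le_sqrt]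
    exact_mod_cast hn
  have h6 := K_ge a b ha
  nlinarith

/-- a lower bound for the prime values -/
lemma lower (a : ℕ) (b : ℤ) (ha : 0 < a) (n y : ℕ) (h : ∀ s ∈ Icc 1 y, ¬ (val a b n s).natAbs.Prime) (q t : ℕ)
    (hq : q.Prime) (hqt : g a b (t : ℤ) - n = q) : 2 * (y * √(n : ℝ)) ≤ q := by
  have hMt : M a b n < t := by
    by_contra hcon
    push Not at hcon
    have h1 := M_le a b n
    have hq0 : (0 : ℤ) < q := by exact_mod_cast hq.pos
    have h2 : (n : ℤ) < g a b t := by linarith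
    have h3 : (t : ℤ) ≤ M a b n := by exact_mod_cast hcon
    have h4 : (0 : ℤ) ≤ t := by positivity
    have h5 : (0 : ℤ) ≤ n := by positivity
    unfold g at h1 h2
    have h6 : 0 < (t : ℤ) * (a * t + b) := by nlinarith
    have h7 : 0 < (a : ℤ) * t + b := pos_of_mul_pos_right h6 h4
    have h8 : (a : ℤ) * t ≤ a * M a b n := mul_le_mul_of_nonneg_left h3 (by positivity)
    have h9 : (t : ℤ) * (a * t + b) ≤ (M a b n : ℤ) * (a * M a b n + b) := by
      apply mul_le_mul h3 (by linarith) h7.le (by linarith)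
    nlinarith
  obtain ⟨s, rfl⟩ : ∃ s, t = M a b n + s := ⟨t - M a b n, by omega⟩
  have hs1 : 1 ≤ s := by omega
  have hval : val a b n s = q := by
    rw [← hqt]
    unfold val
    push_cast
    rfl
  have hys : y < s := by
    by_contra hcon
    push Not at hcon
    apply h s (mem_Icc.2 ⟨hs1, hcon⟩)
    rw [hval, Int.natAbs_natCast]
    exact hq
  obtain ⟨f1, _, _⟩ := facts a b ha n
  have h1 := slope_ge a b ha n
  have h2 : (((s : ℤ) - 1) * (2 * a * ((M a b n : ℤ) + 1) + b)) ≤ (q : ℤ) := by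
    rw [← hval, val_eq]
    have : 0 ≤ (a : ℤ) * ((s : ℤ) - 1) ^ 2 := by positivity
    linarith
  have h3 : ((s : ℝ) - 1) * ((2 * a * ((M a b n : ℤ) + 1) + b : ℤ) : ℝ) ≤ (q : ℝ) := by exact_mod_cast h2
  have h4 : (y : ℝ) ≤ (s : ℝ) - 1 := by
    have : (y : ℝ) + 1 ≤ s := by exact_mod_cast hys
    linarith
  have h5 : 0 ≤ √(n : ℝ) := Real.sqrt_nonneg _
  calc 2 * (y * √(n : ℝ)) = y * (2 * √(n : ℝ)) := by ring
    _ ≤ ((s : ℝ) - 1) * ((2 * a * ((M a b n : ℤ) + 1) + b : ℤ) : ℝ) := by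
        apply mul_le_mul h4 h1 (by positivity)
        have : (0 : ℝ) ≤ y := Nat.cast_nonneg _
        linarith
    _ ≤ q := h3

/-- the prime values -/
def PV (a : ℕ) (b : ℤ) (n : ℕ) : Set ℕ := {q | q.Prime ∧ ∃ t : ℤ, g a b t - n = q}

open Classical in
theorem partC (a : ℕ) (b : ℤ) (ha : 0 < a) (ε : ℝ) (hε : 0 < ε) : ∃ c C : ℝ, 0 < c ∧ 0 < C ∧ ∃ N₀ : ℕ, ∀ N : ℕ, N₀ ≤ N →
    (((Icc 1 N).filter (fun n => (∀ p : ℕ, p.Prime → roots a b n p < p) ∧
      ¬ ∃ q : ℕ, IsLeast (PV a b n) q ∧ c * (√n * Real.log n) ≤ q ∧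
      q ≤ C * (√n * Real.log n))).card : ℝ) ≤ ε * N := by
  have hK := K_ge a b ha
  have hKneg : K a (-b) = K a b := by
    unfold K
    rw [Int.natAbs_neg]
  set η : ℝ := ε / 24 with hη
  have hη0 : 0 < η := by rw [hη]; positivity
  set δ : ℝ := min (ε / 4) (η / 2) with hδ
  have hδ0 : 0 < δ := lt_min (by positivity) (by positivity)
  obtain ⟨z0, h⟩ := partA a b ha 2 δ hδ0
  obtain ⟨A, hA⟩ := h z0 le_rfl
  set c : ℝ := ε / (1200 * (K a b : ℝ) ^ 2) with hc
  have hc0 : 0 < c := by rw [hc]; positivity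
  obtain ⟨N2, hF⟩ := first a b ha 2
  obtain ⟨N3, hF'⟩ := first a (-b) ha 2
  set μ : ℝ := min ((ε / 8) ^ 2) (min (1 / ((A : ℝ) + 3 + 2 * c)) (min (c / 2) 1)) with hμ
  have hμ0 : 0 < μ := lt_min (by positivity) (lt_min (by positivity) (lt_min (by positivity) one_pos))
  obtain ⟨N1, hN1, hev⟩ := ev 4 μ hμ0
  refine ⟨c, 12 * K a b * (A + 2), hc0, by positivity, A + N2 + N3 + N1 + primorial z0, fun N hN => ?_⟩
  obtain ⟨g1, g2⟩ := hev N (by omega)
  have hNr : (0 : ℝ) < N := by exact_mod_cast (by omega : 0 < N)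
  set Λ : ℝ := Real.log N with hΛ
  have hAr : (0 : ℝ) ≤ A := Nat.cast_nonneg _
  have g3 : (A : ℝ) + 3 + 2 * c ≤ Λ := by
    have h1 : μ ≤ 1 / ((A : ℝ) + 3 + 2 * c) := (min_le_right _ _).trans (min_le_left _ _)
    have h2 := inv_anti₀ hμ0 h1
    rw [one_div, inv_inv] at h2
    exact h2.trans g2
  have g4 : 2 ≤ c * Λ := by
    have h1 : μ ≤ c / 2 := (min_le_right _ _).trans ((min_le_right _ _).trans (min_le_left _ _))
    have h2 := inv_anti₀ hμ0 h1
    have h3 : (c / 2)⁻¹ ≤ Λ := h2.trans g2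
    rw [inv_div, div_le_iff₀ hc0] at h3
    linarith
  have hΛ3 : 3 ≤ Λ := by linarith
  have hμ1 : μ ≤ 1 := (min_le_right _ _).trans ((min_le_right _ _).trans (min_le_right _ _))
  have hμε : μ ≤ (ε / 8) ^ 2 := min_le_left _ _
  have hsq : (√(N : ℝ)) ^ 2 = N := Real.sq_sqrt hNr.le
  have hsq0 : 0 < √(N : ℝ) := Real.sqrt_pos.2 hNr
  have g5 : Λ ^ 4 + 1 ≤ √N := by
    apply Real.le_sqrt_of_sq_le
    refine g1.trans ?_
    calc μ * (N : ℝ) ≤ 1 * N := mul_le_mul_of_nonneg_right hμ1 hNr.le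
      _ = N := one_mul _
  have g6 : √(N : ℝ) ≤ ε / 8 * N := by
    have h1 : (1 : ℝ) ≤ μ * N := by
      refine le_trans ?_ g1
      have : (0 : ℝ) ≤ Λ ^ 4 := by positivity
      nlinarith
    have h2 : 1 ≤ (ε / 8 * √N) ^ 2 := by
      rw [mul_pow, hsq]
      exact h1.trans (mul_le_mul_of_nonneg_right hμε hNr.le)
    have h3 : 1 ≤ ε / 8 * √N := by
      by_contra hcon
      push Not at hcon
      have h4 : 0 ≤ ε / 8 * √N := by positivity
      nlinarith
    calc √(N : ℝ) = 1 * √N := (one_mul _).symm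
      _ ≤ (ε / 8 * √N) * √N := mul_le_mul_of_nonneg_right h3 hsq0.le
      _ = ε / 8 * (√N) ^ 2 := by ring
      _ = _ := by rw [hsq]
  obtain ⟨x, hx1, hx2⟩ : ∃ x : ℕ, (A + 1) * Λ ≤ x ∧ (x : ℝ) ≤ (A + 1) * Λ + 1 :=
    ⟨⌈(A + 1) * Λ⌉₊, Nat.le_ceil _, (Nat.ceil_lt_add_one (by positivity)).le⟩
  have hx3 : (x : ℝ) + 1 ≤ Λ ^ 2 := by nlinarith
  have hx0 : (0 : ℝ) < x := by nlinarith
  obtain ⟨y, hy1, hy2⟩ : ∃ y : ℕ, c * Λ / 2 ≤ y ∧ (y : ℝ) ≤ c * Λ := by
    refine ⟨⌊c * Λ⌋₊, ?_, Nat.floor_le (by positivity)⟩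
    have := (Nat.sub_one_lt_floor (c * Λ)).le
    linarith
  have hy3 : (y : ℝ) ≤ Λ ^ 2 := by nlinarith
  have k1 := hA N (by omega) x (by nlinarith) (by linarith)
  have k2 := small a b z0 N (by omega) η hη0
  have k3 := hF N (by omega) y hy3
  have k4 := hF' N (by omega) y hy3
  rw [hKneg] at k4
  set E3 : ℕ → Finset ℕ := fun t => (Icc 1 N).filter (fun n => (val a b n t).natAbs.Prime) with hE3
  set E4 : ℕ → Finset ℕ := fun t => (Icc 1 N).filter (fun n => (val a (-b) n t).natAbs.Prime) with hE4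
  have hsub : (Icc 1 N).filter (fun n => (∀ p : ℕ, p.Prime → roots a b n p < p) ∧
      ¬ ∃ q : ℕ, IsLeast (PV a b n) q ∧ c * (√n * Real.log n) ≤ q ∧ q ≤ 12 * K a b * (A + 2) * (√n * Real.log n)) ⊆
      (((range (Nat.sqrt N) ∪ (Icc 1 N).filter (fun n => ¬ ∀ y ≤ x, |reps a b n y * (Real.log N / 2) - Sing a b n z0 * y| ≤ δ * x)) ∪
        (Icc 1 N).filter (fun n => 0 < Sing a b n z0 ∧ Sing a b n z0 < η)) ∪ (Icc 1 y).biUnion E3) ∪ (Icc 1 y).biUnion E4 := by
    intro n hn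
    rw [mem_filter] at hn
    by_contra hcon
    rw [mem_union, mem_union, mem_union, mem_union, mem_range, mem_filter, mem_filter, mem_biUnion, mem_biUnion] at hcon
    push Not at hcon
    obtain ⟨⟨⟨⟨c1, c2⟩, c3⟩, c4⟩, c5⟩ := hcon
    apply hn.2.2
    have c2' := c2 hn.1 x le_rfl
    have c3' := c3 hn.1 (Sing_pos a b n z0 hn.2.1)
    have hn1 : 1 ≤ n ∧ n ≤ N := mem_Icc.1 hn.1
    have hnr : (1 : ℝ) ≤ n := by exact_mod_cast hn1.1
    have hnN : √(N : ℝ) ≤ n + 1 := by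
      have h1 : √(N : ℝ) ≤ Nat.sqrt N + 1 := Real.real_sqrt_le_nat_sqrt_succ
      have h2 : (Nat.sqrt N : ℝ) ≤ n := by exact_mod_cast c1
      linarith
    have hlog : Λ ≤ 4 * Real.log n := by
      have h1 : √(N : ℝ) ≤ (n : ℝ) ^ 2 := by
        have h2 : (3 : ℝ) ≤ √N := by
          have : (3 : ℝ) ^ 4 ≤ Λ ^ 4 := pow_le_pow_left₀ (by norm_num) hΛ3 4
          linarith
        nlinarith
      have h2 := Real.log_le_log hsq0 h1
      rw [Real.log_sqrt hNr.le, Real.log_pow] at h2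
      push_cast at h2
      rw [← hΛ] at h2
      linarith
    have hlogn : Real.log n ≤ Λ := by
      apply Real.log_le_log (by linarith)
      exact_mod_cast hn1.2
    have hsn0 : 0 < √(n : ℝ) := Real.sqrt_pos.2 (by linarith)
    have hsn : (√(n : ℝ)) ^ 2 = n := Real.sq_sqrt (by linarith)
    have hlogn0 : 0 ≤ Real.log n := Real.log_nonneg hnr
    have hxn : (x : ℝ) ≤ √n := by
      apply Real.le_sqrt_of_sq_le
      have h1 : (x : ℝ) ^ 2 ≤ (Λ ^ 2) ^ 2 := pow_le_pow_left₀ hx0.le (by linarith) 2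
      have h2 : (Λ ^ 2) ^ 2 = Λ ^ 4 := by ring
      linarith
    -- a prime value
    have hrep : reps a b n x ≠ 0 := by
      intro h0
      rw [h0] at c2'
      have h1 := (abs_le.1 c2').1
      have h2 : η * x ≤ Sing a b n z0 * x := mul_le_mul_of_nonneg_right c3' hx0.le
      have h3 : δ * x ≤ η / 2 * x := mul_le_mul_of_nonneg_right (min_le_right _ _) hx0.le
      have h4 : 0 < η * x := mul_pos hη0 hx0
      push_cast at h1
      linarith
    obtain ⟨s, hs⟩ := card_pos.1 (Nat.pos_of_ne_zero hrep)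
    rw [mem_filter, mem_Icc] at hs
    obtain ⟨f1, f2, _⟩ := facts a b ha n
    have ha' : (1 : ℤ) ≤ a := by exact_mod_cast ha
    have f0 : 0 ≤ 2 * a * ((M a b n : ℤ) + 1) + b := by nlinarith
    have hs1 : (0 : ℤ) ≤ (s : ℤ) - 1 := by
      have : (1 : ℤ) ≤ s := by exact_mod_cast hs.1.1
      linarith
    have hvpos : 0 ≤ val a b n s := by
      rw [val_eq]
      have e1 : 0 ≤ ((s : ℤ) - 1) * (2 * a * ((M a b n : ℤ) + 1) + b) := mul_nonneg hs1 f0
      have e2 : 0 ≤ (a : ℤ) * ((s : ℤ) - 1) ^ 2 := by positivity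
      linarith
    have hvabs : (((val a b n s).natAbs : ℕ) : ℤ) = val a b n s := Int.natAbs_of_nonneg hvpos
    have hmem : (val a b n s).natAbs ∈ PV a b n := by
      refine ⟨hs.2, (M a b n : ℤ) + s, ?_⟩
      rw [hvabs]
      rfl
    have hne : (PV a b n).Nonempty := ⟨_, hmem⟩
    refine ⟨sInf (PV a b n), ⟨Nat.sInf_mem hne, fun q hq => Nat.sInf_le hq⟩, ?_, ?_⟩
    · -- lower bound
      obtain ⟨hp, t, ht⟩ := Nat.sInf_mem hne
      set q := sInf (PV a b n) with hqdef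
      have key : 2 * (y * √(n : ℝ)) ≤ q := by
        rcases le_or_gt 0 t with h0 | h0
        · obtain ⟨t', rfl⟩ := Int.eq_ofNat_of_zero_le h0
          apply lower a b ha n y _ q t' hp ht
          intro s hs hpr
          apply c4 s hs
          rw [hE3]
          exact mem_filter.2 ⟨hn.1, hpr⟩
        · obtain ⟨t', ht'⟩ := Int.eq_ofNat_of_zero_le (neg_nonneg.2 h0.le)
          apply lower a (-b) ha n y _ q t' hp _
          · intro s hs hpr
            apply c5 s hs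
            rw [hE4]
            exact mem_filter.2 ⟨hn.1, hpr⟩
          · rw [← ht, ← ht']
            unfold g
            ring
      refine le_trans ?_ key
      have h1 : c * Real.log n ≤ 2 * y := by
        have : c * Real.log n ≤ c * Λ := mul_le_mul_of_nonneg_left hlogn hc0.le
        linarith
      calc c * (√(n : ℝ) * Real.log n) = (c * Real.log n) * √(n : ℝ) := by ring
        _ ≤ (2 * y) * √(n : ℝ) := mul_le_mul_of_nonneg_right h1 hsn0.le
        _ = _ := by ring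
    · -- upper bound
      have h1 : sInf (PV a b n) ≤ (val a b n s).natAbs := Nat.sInf_le hmem
      have h2 : ((sInf (PV a b n) : ℕ) : ℝ) ≤ (((val a b n s).natAbs : ℕ) : ℝ) := by exact_mod_cast h1
      refine h2.trans ?_
      have h3 : (((val a b n s).natAbs : ℕ) : ℝ) = ((val a b n s : ℤ) : ℝ) := by
        rw [← Int.cast_natCast, hvabs]
      rw [h3]
      have h4 : val a b n s ≤ (s : ℤ) * (2 * a * ((M a b n : ℤ) + 1) + b) + a * (s : ℤ) ^ 2 := by
        rw [val_eq]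
        nlinarith
      have h5 : ((val a b n s : ℤ) : ℝ) ≤ (s : ℝ) * ((2 * a * ((M a b n : ℤ) + 1) + b : ℤ) : ℝ) + a * (s : ℝ) ^ 2 := by
        exact_mod_cast h4
      have h6 := slope_up a b ha n hn1.1
      have hsx : (s : ℝ) ≤ x := by exact_mod_cast hs.1.2
      have hs0 : (0 : ℝ) ≤ s := Nat.cast_nonneg _
      have haK : (a : ℝ) ≤ K a b := by
        unfold K
        exact_mod_cast (by omega : a ≤ 4 * a + b.natAbs)
      have h7 : (s : ℝ) * ((2 * a * ((M a b n : ℤ) + 1) + b : ℤ) : ℝ) ≤ x * (2 * K a b * √(n : ℝ)) := by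
        apply mul_le_mul hsx h6 _ hx0.le
        exact_mod_cast f0
      have h8 : (a : ℝ) * (s : ℝ) ^ 2 ≤ K a b * (x * √n) := by
        apply mul_le_mul haK _ (by positivity) (by linarith)
        rw [sq]
        exact mul_le_mul hsx (hsx.trans hxn) hs0 hx0.le
      have h9 : ((val a b n s : ℤ) : ℝ) ≤ 3 * K a b * (x * √n) := by
        refine h5.trans ((add_le_add h7 h8).trans (le_of_eq ?_))
        ring
      refine h9.trans ?_
      have h10 : (x : ℝ) ≤ 4 * (A + 2) * Real.log n := by nlinarith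
      calc 3 * (K a b : ℝ) * (x * √n) ≤ 3 * (K a b : ℝ) * ((4 * (A + 2) * Real.log n) * √n) := by
            apply mul_le_mul_of_nonneg_left _ (by positivity)
            exact mul_le_mul_of_nonneg_right h10 hsn0.le
        _ = _ := by ring
  have q1 : (((range (Nat.sqrt N) : Finset ℕ).card : ℕ) : ℝ) ≤ ε / 8 * N := by
    rw [card_range]
    exact Real.nat_sqrt_le_real_sqrt.trans g6
  have q2 : (((Icc 1 N).filter (fun n => ¬ ∀ y ≤ x, |reps a b n y * (Real.log N / 2) - Sing a b n z0 * y| ≤ δ * x)).card : ℝ) ≤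
      ε / 4 * N := k1.trans (mul_le_mul_of_nonneg_right (min_le_left _ _) hNr.le)
  have q3 : (((Icc 1 N).filter (fun n => 0 < Sing a b n z0 ∧ Sing a b n z0 < η)).card : ℝ) ≤ ε / 4 * N := by
    refine k2.trans (le_of_eq ?_)
    rw [hη]
    ring
  have qq : ∀ E : ℕ → Finset ℕ, (∀ t ∈ Icc 1 y, ((E t).card : ℝ) ≤ 150 * (K a b : ℝ) ^ 2 * N / Λ) →
      ((((Icc 1 y).biUnion E).card : ℕ) : ℝ) ≤ ε / 8 * N := by
    intro E hE
    calc ((((Icc 1 y).biUnion E).card : ℕ) : ℝ) ≤ ((∑ t ∈ Icc 1 y, (E t).card : ℕ) : ℝ) :=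
          Nat.cast_le.2 card_biUnion_le
      _ = ∑ t ∈ Icc 1 y, ((E t).card : ℝ) := by push_cast; rfl
      _ ≤ ∑ t ∈ Icc 1 y, 150 * (K a b : ℝ) ^ 2 * N / Λ := sum_le_sum fun t ht => hE t ht
      _ = y * (150 * (K a b : ℝ) ^ 2 * N / Λ) := by
          rw [sum_const, Nat.card_Icc, Nat.add_sub_cancel, nsmul_eq_mul]
      _ ≤ (c * Λ) * (150 * (K a b : ℝ) ^ 2 * N / Λ) := by
          apply mul_le_mul_of_nonneg_right hy2 (by positivity)
      _ = ε / 8 * N := by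
          rw [hc]
          field_simp
          norm_num
  have q4 := qq E3 k3
  have q5 := qq E4 k4
  calc _ ≤ ((((((range (Nat.sqrt N) ∪ (Icc 1 N).filter (fun n => ¬ ∀ y ≤ x, |reps a b n y * (Real.log N / 2) - Sing a b n z0 * y| ≤ δ * x)) ∪
        (Icc 1 N).filter (fun n => 0 < Sing a b n z0 ∧ Sing a b n z0 < η)) ∪ (Icc 1 y).biUnion E3) ∪ (Icc 1 y).biUnion E4).card : ℕ) : ℝ) :=
        Nat.cast_le.2 (card_le_card hsub)
    _ ≤ (((range (Nat.sqrt N)).card + ((Icc 1 N).filter (fun n => ¬ ∀ y ≤ x, |reps a b n y * (Real.log N / 2) - Sing a b n z0 * y| ≤ δ * x)).card +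
        ((Icc 1 N).filter (fun n => 0 < Sing a b n z0 ∧ Sing a b n z0 < η)).card + ((Icc 1 y).biUnion E3).card +
        ((Icc 1 y).biUnion E4).card : ℕ) : ℝ) := by
        apply Nat.cast_le.2
        refine (card_union_le _ _).trans (Nat.add_le_add_right ?_ _)
        refine (card_union_le _ _).trans (Nat.add_le_add_right ?_ _)
        refine (card_union_le _ _).trans (Nat.add_le_add_right ?_ _)
        exact card_union_le _ _
    _ ≤ ε * N := by
        rw [Nat.cast_add, Nat.cast_add, Nat.cast_add, Nat.cast_add]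
        have : 0 < ε * N := mul_pos hε hNr
        linarith

end Pool.Agent.Helper2K9.FP
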