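import Pool.Agent.Helper82K9.PR.PR9
import Pool.Agent.Helper2K9.FP.Loc

set_option autoImplicit false

/-! The values of `a t² + b t - n` beyond the root as values of random linear polynomials. -/

namespace Pool.Agent.Helper2K9.FP

open Finset Filter Pool.Agent.Helper82K9.PR

variable (a : ℕ) (b : ℤ)

/-- the largest `t ≥ 0` with `a t² + b t ≤ n` -/
def M (n : ℕ) : ℕ := Nat.findGreatest (fun t : ℕ => g a b t ≤ n) (n + b.natAbs)

lemma M_le (n : ℕ) : g a b (M a b n : ℤ) ≤ n := by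
  have h := Nat.findGreatest_spec (P := fun t : ℕ => g a b t ≤ n) (m := 0) (n := n + b.natAbs) (Nat.zero_le _) (by
    unfold g
    simp)
  exact h

lemma M_lt (ha : 0 < a) (n t : ℕ) (ht : M a b n < t) : (n : ℤ) < g a b t := by
  by_contra hcon
  push Not at hcon
  rcases le_or_gt t (n + b.natAbs) with h | h
  · exact Nat.findGreatest_is_greatest (P := fun t : ℕ => g a b t ≤ n) ht h hcon
  · unfold g at hcon
    have h1 : ((n : ℤ) + |b|) < t := by
      have : ((n + b.natAbs : ℕ) : ℤ) < t := by exact_mod_cast h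
      push_cast at this
      exact this
    have h2 : -b ≤ |b| := neg_le_abs b
    have h3 : (1 : ℤ) ≤ a := by exact_mod_cast ha
    have h4 : (0 : ℤ) ≤ n := by positivity
    have h5 : (0 : ℤ) ≤ |b| := abs_nonneg b
    have h6 : (t : ℤ) * (n + 1) ≤ t * (a * t + b) := by
      apply mul_le_mul_of_nonneg_left _ (by linarith)
      nlinarith
    nlinarith

/-- the value `f(M + t)` -/
def val (n t : ℕ) : ℤ := g a b ((M a b n : ℤ) + t) - n

/-- the linear polynomial of `n` -/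
def vv (n : ℕ) : Fin (1 + 1) → ℤ :=
  ![g a b ((M a b n : ℤ) + 1) - n - (2 * a * ((M a b n : ℤ) + 1) + b), 2 * a * ((M a b n : ℤ) + 1) + b]

/-- the quadratic polynomial of `n` -/
def qq (n : ℕ) : Fin (2 + 1) → ℤ := ![g a b (M a b n : ℤ) - n, 2 * a * (M a b n : ℤ) + b, a]

def h1 : Fin 1 → ℕ := fun _ => 0

def G1 : ℕ → Fin 1 → ℤ := fun t _ => a * ((t : ℤ) - 1) ^ 2

lemma h1_inj : Function.Injective h1 := fun a b _ => Subsingleton.elim a b

lemma pv_vv (n t : ℕ) : pv (vv a b n) t + G1 a t 0 = val a b n t := by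
  unfold pv vv G1 val g
  rw [Fin.sum_univ_two]
  simp
  ring

lemma pv_qq (n t : ℕ) : pv (qq a b n) t = val a b n t := by
  unfold pv qq val g
  rw [Fin.sum_univ_three]
  simp
  ring

lemma FF_vv (L : ℝ) (n t : ℕ) : FF L h1 (G1 a) (vv a b n) t = om L (val a b n t) := by
  unfold FF
  rw [Fin.prod_univ_one]
  have : t + h1 0 = t := rfl
  rw [this, pv_vv]

lemma RR_vv (z n t : ℕ) : RR z h1 (G1 a) (vv a b n) t = MM (primorial z) (val a b n t) := by
  unfold RR
  rw [Fin.prod_univ_one]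
  have : t + h1 0 = t := rfl
  rw [this, pv_vv]

lemma RR_qq (z n t : ℕ) : RR z h1 (fun _ _ => 0) (qq a b n) t = MM (primorial z) (val a b n t) := by
  unfold RR
  rw [Fin.prod_univ_one]
  have : t + h1 0 = t := rfl
  rw [this, pv_qq, add_zero]

/-- the constant of the box -/
def K : ℕ := 4 * a + b.natAbs

/-- the box -/
def HH (N : ℕ) : ℕ := K a b * (Nat.sqrt N + 1)

lemma facts (ha : 0 < a) (n : ℕ) : 0 < g a b ((M a b n : ℤ) + 1) - n ∧
    g a b ((M a b n : ℤ) + 1) - n ≤ 2 * a * (M a b n : ℤ) + a + b ∧ g a b (M a b n : ℤ) ≤ n := by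
  have h1 := M_le a b n
  have h2 := M_lt a b ha n (M a b n + 1) (Nat.lt_succ_self _)
  push_cast at h2
  refine ⟨by linarith, ?_, h1⟩
  have h3 : g a b ((M a b n : ℤ) + 1) = g a b (M a b n : ℤ) + (2 * a * (M a b n : ℤ) + a + b) := by
    unfold g
    ring
  rw [h3]
  linarith

lemma slope_le (ha : 0 < a) (N n : ℕ) (hn : n ≤ N) :
    2 * a * (M a b n : ℤ) + b ≤ 2 * a * ((Nat.sqrt N : ℤ) + 1) + |b| := by
  obtain ⟨h1, h2, h3⟩ := facts a b ha n
  have h4 : (N : ℤ) < ((Nat.sqrt N : ℤ) + 1) ^ 2 := by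
    have := Nat.lt_succ_sqrt' N
    rw [Nat.succ_eq_add_one] at this
    exact_mod_cast this
  have h5 : (n : ℤ) ≤ N := by exact_mod_cast hn
  have ha' : (1 : ℤ) ≤ a := by exact_mod_cast ha
  have hs : (0 : ℤ) ≤ Nat.sqrt N := by positivity
  have e : (2 * a * (M a b n : ℤ) + b) ^ 2 = 4 * a * g a b (M a b n : ℤ) + b ^ 2 := by
    unfold g
    ring
  have h6 : (2 * a * (M a b n : ℤ) + b) ^ 2 ≤ (2 * a * ((Nat.sqrt N : ℤ) + 1) + |b|) ^ 2 := by
    rw [e]
    have h7 : 4 * a * g a b (M a b n : ℤ) ≤ 4 * a * (((Nat.sqrt N : ℤ) + 1) ^ 2) := by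
      apply mul_le_mul_of_nonneg_left _ (by positivity)
      linarith
    have h8 : 4 * (a : ℤ) * (((Nat.sqrt N : ℤ) + 1) ^ 2) ≤ 4 * a ^ 2 * (((Nat.sqrt N : ℤ) + 1) ^ 2) := by
      apply mul_le_mul_of_nonneg_right _ (by positivity)
      nlinarith
    have h9 : 0 ≤ 4 * (a : ℤ) * ((Nat.sqrt N : ℤ) + 1) * |b| := by positivity
    have h10 : |b| ^ 2 = b ^ 2 := sq_abs b
    nlinarith
  have h7 := abs_le_of_sq_le_sq h6 (by positivity)
  exact (le_abs_self _).trans h7

lemma vv_mem (ha : 0 < a) (N n : ℕ) (hn : n ≤ N) : vv a b n ∈ Bx 1 (HH a b N) := by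
  unfold Bx
  rw [Fintype.mem_piFinset]
  obtain ⟨h1, h2, h3⟩ := facts a b ha n
  have h4 := slope_le a b ha N n hn
  have ha' : (1 : ℤ) ≤ a := by exact_mod_cast ha
  have hs : (0 : ℤ) ≤ Nat.sqrt N := by positivity
  have hb : 0 ≤ |b| := abs_nonneg b
  have hH : ((HH a b N : ℕ) : ℤ) = (4 * a + |b|) * ((Nat.sqrt N : ℤ) + 1) := by
    unfold HH K
    push_cast
    ring
  have h5 : 2 * a * ((M a b n : ℤ) + 1) + b ≤ HH a b N := by
    rw [hH]
    have : 0 ≤ |b| * (Nat.sqrt N : ℤ) := by positivity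
    nlinarith
  have h6 : 0 ≤ 2 * a * ((M a b n : ℤ) + 1) + b := by nlinarith
  intro i
  rw [mem_Icc]
  fin_cases i
  · change -((HH a b N : ℕ) : ℤ) ≤ g a b ((M a b n : ℤ) + 1) - n - (2 * a * ((M a b n : ℤ) + 1) + b) ∧
      g a b ((M a b n : ℤ) + 1) - n - (2 * a * ((M a b n : ℤ) + 1) + b) ≤ ((HH a b N : ℕ) : ℤ)
    constructor <;> nlinarith
  · change -((HH a b N : ℕ) : ℤ) ≤ 2 * a * ((M a b n : ℤ) + 1) + b ∧
      2 * a * ((M a b n : ℤ) + 1) + b ≤ ((HH a b N : ℕ) : ℤ)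
    constructor <;> linarith

lemma vv_inj (ha : 0 < a) : Function.Injective (vv a b) := by
  intro m n h
  have h0 : g a b ((M a b m : ℤ) + 1) - m - (2 * a * ((M a b m : ℤ) + 1) + b) =
      g a b ((M a b n : ℤ) + 1) - n - (2 * a * ((M a b n : ℤ) + 1) + b) := congrFun h 0
  have h1 : 2 * a * ((M a b m : ℤ) + 1) + b = 2 * a * ((M a b n : ℤ) + 1) + b := congrFun h 1
  have ha' : (a : ℤ) ≠ 0 := by exact_mod_cast ha.ne'
  have h2 : (M a b m : ℤ) = M a b n := by
    have h3 : (a : ℤ) * ((M a b m : ℤ) - M a b n) = 0 := by linarith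
    rcases mul_eq_zero.1 h3 with h4 | h4
    · exact absurd h4 ha'
    · linarith
  rw [h2] at h0
  have h3 : (m : ℤ) = n := by linarith
  exact_mod_cast h3

open Classical in
lemma transfer (ha : 0 < a) (N : ℕ) (E : (Fin (1 + 1) → ℤ) → Prop) :
    (((Icc 1 N).filter (fun n => E (vv a b n))).card : ℝ) ≤ (((Bx 1 (HH a b N)).filter E).card : ℝ) := by
  rw [Nat.cast_le]
  apply card_le_card_of_injOn (vv a b)
  · intro n hn
    rw [mem_coe, mem_filter, mem_Icc] at hn
    rw [mem_coe, mem_filter]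
    exact ⟨vv_mem a b ha N n hn.1.2, hn.2⟩
  · exact (vv_inj a b ha).injOn

lemma K_ge (ha : 0 < a) : (4 : ℝ) ≤ K a b := by
  unfold K
  have h1 : (1 : ℝ) ≤ a := by exact_mod_cast ha
  have h2 : (0 : ℝ) ≤ b.natAbs := Nat.cast_nonneg _
  push_cast at h2 ⊢
  linarith

lemma card_le (ha : 0 < a) (N : ℕ) (hN : 1 ≤ N) : (((Bx 1 (HH a b N)).card : ℕ) : ℝ) ≤ 25 * (K a b : ℝ) ^ 2 * N := by
  rw [card_Bx]
  unfold HH
  push_cast
  have hK := K_ge a b ha
  have h1 : (Nat.sqrt N : ℝ) ≤ √N := Real.nat_sqrt_le_real_sqrt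
  have h2 : (1 : ℝ) ≤ √N := by
    rw [Real.one_le_sqrt]
    exact_mod_cast hN
  have h3 : (√(N : ℝ)) ^ 2 = N := Real.sq_sqrt (Nat.cast_nonneg _)
  have h4 : (0 : ℝ) ≤ Nat.sqrt N := Nat.cast_nonneg _
  calc (2 * ((K a b : ℝ) * ((Nat.sqrt N : ℝ) + 1)) + 1) ^ (1 + 1) ≤ (5 * (K a b : ℝ) * √N) ^ 2 := by
        apply pow_le_pow_left₀ (by positivity)
        nlinarith
    _ = _ := by rw [mul_pow, mul_pow, h3]; norm_num

/-- the constant in `log H` -/
noncomputable def κ : ℝ := Real.log (2 * (K a b : ℝ))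

lemma κ_nonneg (ha : 0 < a) : 0 ≤ κ a b := by
  unfold κ
  apply Real.log_nonneg
  have := K_ge a b ha
  linarith

/-- the size of `log H` -/
lemma log_H (ha : 0 < a) (N : ℕ) (hN : 1 ≤ N) : Real.log N / 2 ≤ Real.log ((HH a b N : ℕ) : ℝ) ∧
    Real.log ((HH a b N : ℕ) : ℝ) ≤ Real.log N / 2 + κ a b := by
  have hK := K_ge a b ha
  have hN0 : (0 : ℝ) < N := by exact_mod_cast hN
  have h1 : (Nat.sqrt N : ℝ) ≤ √N := Real.nat_sqrt_le_real_sqrt
  have h2 : (1 : ℝ) ≤ √N := by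
    rw [Real.one_le_sqrt]
    exact_mod_cast hN
  have h3 : √(N : ℝ) ≤ Nat.sqrt N + 1 := Real.real_sqrt_le_nat_sqrt_succ
  have h4 : Real.log √N = Real.log N / 2 := Real.log_sqrt hN0.le
  have h6 : (0 : ℝ) ≤ Nat.sqrt N := Nat.cast_nonneg _
  constructor
  · rw [← h4]
    apply Real.log_le_log (by linarith)
    unfold HH
    push_cast
    nlinarith
  · have h5 : ((HH a b N : ℕ) : ℝ) ≤ (2 * (K a b : ℝ)) * √N := by
      unfold HH
      push_cast
      nlinarith
    calc Real.log ((HH a b N : ℕ) : ℝ) ≤ Real.log ((2 * (K a b : ℝ)) * √N) := by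
          apply Real.log_le_log _ h5
          unfold HH
          push_cast
          positivity
      _ = _ := by
          rw [Real.log_mul (by positivity) (by linarith), h4]
          unfold κ
          ring

/-- the eventual inequalities -/
lemma ev (B : ℕ) (δ : ℝ) (hδ : 0 < δ) : ∃ N₀ : ℕ, 1 ≤ N₀ ∧ ∀ N : ℕ, N₀ ≤ N → (Real.log N ^ B + 1) ^ 2 ≤ δ * N ∧
    δ⁻¹ ≤ Real.log N := by
  have h1 : Tendsto (fun n : ℕ => (n : ℝ)) atTop atTop := tendsto_natCast_atTop_atTop
  have h2 := ((Real.isLittleO_pow_log_id_atTop (n := 2 * B)).comp_tendsto h1).def (c := δ / 4) (by positivity)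
  have h3 : Tendsto (fun n : ℕ => Real.log n) atTop atTop := Real.tendsto_log_atTop.comp h1
  obtain ⟨a, ha⟩ := eventually_atTop.1 h2
  obtain ⟨b, hb⟩ := eventually_atTop.1 (h3.eventually_ge_atTop (max 1 δ⁻¹))
  refine ⟨max (max a b) 1, le_max_right _ _, fun N hN => ?_⟩
  have h4 := ha N ((le_max_left _ _).trans ((le_max_left _ _).trans hN))
  have h5 := hb N ((le_max_right _ _).trans ((le_max_left _ _).trans hN))
  have h6 : 1 ≤ Real.log N := (le_max_left _ _).trans h5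
  refine ⟨?_, (le_max_right _ _).trans h5⟩
  simp only [Function.comp, id, Real.norm_eq_abs] at h4
  rw [abs_of_nonneg (by positivity), abs_of_nonneg (Nat.cast_nonneg _)] at h4
  have h7 : 1 ≤ Real.log N ^ B := one_le_pow₀ h6
  calc (Real.log N ^ B + 1) ^ 2 ≤ (2 * Real.log N ^ B) ^ 2 := by
        apply pow_le_pow_left₀ (by positivity)
        linarith
    _ = 4 * Real.log N ^ (2 * B) := by rw [mul_pow, ← pow_mul, mul_comm B 2]; norm_num
    _ ≤ 4 * (δ / 4 * N) := by linarith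
    _ = _ := by ring

/-- the local factors -/
lemma nu_eq (n p : ℕ) (hp : 0 < p) : nu h1 (qq a b n) p = roots a b n p := by
  classical
  set r : ℕ := M a b n with hr
  have gmod : ∀ u v : ℕ, u ≡ v [MOD p] → g a b (u : ℤ) - n ≡ g a b (v : ℤ) - n [ZMOD p] := by
    intro u v h
    have h1 : (u : ℤ) ≡ v [ZMOD p] := (Int.natCast_modEq_iff).2 h
    unfold g
    exact (((h1.pow 2).mul_left _).add (h1.mul_left _)).sub_right _
  have hrp : r % p < p := Nat.mod_lt _ hp
  have back : ∀ m : ℕ, r + (m + (p - r % p)) ≡ m [MOD p] := by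
    intro m
    have h1 : r ≡ r % p [MOD p] := (Nat.mod_modEq r p).symm
    have h2 : r + (m + (p - r % p)) ≡ r % p + (m + (p - r % p)) [MOD p] := h1.add_right _
    have h3 : r % p + (m + (p - r % p)) = m + p := by omega
    rw [h3] at h2
    refine h2.trans ?_
    unfold Nat.ModEq
    simp
  unfold nu roots
  apply card_bij' (fun (t : ℕ) _ => (r + t) % p) (fun (m : ℕ) _ => (m + (p - r % p)) % p)
  · intro t ht
    rw [mem_filter, mem_range] at ht ⊢
    refine ⟨Nat.mod_lt _ hp, ?_⟩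
    obtain ⟨i, hi⟩ := ht.2
    have h2 : t + h1 i = t := rfl
    rw [h2, pv_qq] at hi
    unfold val at hi
    have h3 := gmod ((r + t) % p) (r + t) (Nat.mod_modEq _ _)
    rw [Int.ModEq.dvd_iff h3]
    push_cast
    exact hi
  · intro m hm
    rw [mem_filter, mem_range] at hm ⊢
    refine ⟨Nat.mod_lt _ hp, 0, ?_⟩
    have h2 : (m + (p - r % p)) % p + h1 0 = (m + (p - r % p)) % p := rfl
    rw [h2, pv_qq]
    unfold val
    have h3 : r + (m + (p - r % p)) % p ≡ m [MOD p] := ((Nat.mod_modEq _ _).add_left _).trans (back m)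
    have h4 := gmod _ _ h3
    have h5 := (Int.ModEq.dvd_iff h4).2 hm.2
    push_cast at h5 ⊢
    exact h5
  · intro t ht
    rw [mem_filter, mem_range] at ht
    have h3 : (r + t) % p + (p - r % p) ≡ t [MOD p] := by
      have h4 : (r + t) % p + (p - r % p) ≡ (r + t) + (p - r % p) [MOD p] := (Nat.mod_modEq _ _).add_right _
      have h5 : (r + t) + (p - r % p) = r + (t + (p - r % p)) := by ring
      rw [h5] at h4
      exact h4.trans (back t)
    have h4 : ((r + t) % p + (p - r % p)) % p = t % p := h3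
    rw [Nat.mod_eq_of_lt ht.1] at h4
    exact h4
  · intro m hm
    rw [mem_filter, mem_range] at hm
    have h3 : r + (m + (p - r % p)) % p ≡ m [MOD p] := ((Nat.mod_modEq _ _).add_left _).trans (back m)
    have h4 : (r + (m + (p - r % p)) % p) % p = m % p := h3
    rw [Nat.mod_eq_of_lt hm.1] at h4
    exact h4

lemma SS_eq (n z : ℕ) : SS z h1 (qq a b n) = Sing a b n z := by
  unfold SS Sing
  apply prod_congr rfl
  intro p hp
  unfold fac
  rw [nu_eq a b n p (mem_filter.1 hp).2.pos, pow_one]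

/-- the number of the arguments with values prime to the small primes -/
lemma formula (n z y : ℕ) : |∑ t ∈ Icc 1 y, MM (primorial z) (val a b n t) - Sing a b n z * y| ≤ Cz z * primorial z := by
  have h := RR_sum z h1 (qq a b n) y
  rw [SS_eq, pow_one] at h
  simp only [RR_qq] at h
  exact h

end Pool.Agent.Helper2K9.FP
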